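import Pool.Agent.H12.CSP.A.Helper460_CSP.Gap

set_option autoImplicit false
set_option linter.unusedSectionVars false
set_option linter.unusedSimpArgs false
set_option linter.unusedVariables false
set_option linter.unnecessarySeqFocus false

namespace Pool.Agent.Helper460_CSP

open Pool.Agent.Helper460_OutF
open FreeGroup (of)
open scoped commutatorElement

section

variable {n : ℕ}

/-- The class-two congruence property. -/
def C2 (Γ : Subgroup (MulAut (FreeGroup (Fin n)))) : Prop :=
  ∃ K : Subgroup (FreeGroup (Fin n)), K.Characteristic ∧ K.FiniteIndex ∧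
    (∀ x y z : FreeGroup (Fin n), ⁅⁅x, y⁆, z⁆ ∈ K) ∧
    ∀ ψ : MulAut (FreeGroup (Fin n)),
      (∃ g : FreeGroup (Fin n), ∀ x : FreeGroup (Fin n), ψ x * (g * x * g⁻¹)⁻¹ ∈ K) → ψ ∈ Γ

theorem C2_of_step (hn : 3 ≤ n) {N : Subgroup (MulAut (FreeGroup (Fin n)))} [N.Normal] {M : ℕ}
    (h : Step N M) : C2 N := by
  obtain ⟨k, rfl⟩ : ∃ k, n = k + 3 := ⟨n - 3, by omega⟩
  have hM := h.pos
  have : NeZero M := ⟨hM.ne'⟩
  have : NeZero (4 * M) := ⟨by omega⟩
  refine ⟨VK (Fin (k + 3)) (HM M), inferInstance, VK_finite, VK_class2, ?_⟩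
  intro ψ hψ
  exact N1_le h (cong_N1 hM hψ)

/-- Elements of `[IA, IA]` act trivially modulo the third term of the lower central series. -/
lemma comm_IA_triv {ι : Type} [DecidableEq ι] {K : Subgroup (FreeGroup ι)} [hK : K.Characteristic]
    (hcl : ∀ x y z : FreeGroup ι, ⁅⁅x, y⁆, z⁆ ∈ K) {ψ : MulAut (FreeGroup ι)}
    (hψ : ψ ∈ ⁅IA (FreeGroup ι), IA (FreeGroup ι)⁆) : ∀ x, ψ x * x⁻¹ ∈ K := by
  have hKn : K.Normal := inferInstance
  -- the subgroup of the automorphisms acting trivially modulo `K`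
  let T : Subgroup (MulAut (FreeGroup ι)) :=
    { carrier := {φ | ∀ x, φ x * x⁻¹ ∈ K}
      mul_mem' := fun {a b} ha hb x => by
        have := mul_mem (ha (b x)) (hb x)
        rwa [mul_assoc, inv_mul_cancel_left] at this
      one_mem' := fun x => by
        show x * x⁻¹ ∈ K
        rw [mul_inv_cancel]; exact one_mem _
      inv_mem' := fun {a} ha x => by
        have h1 := ha (a⁻¹ x)
        rw [MulAut.apply_inv_self] at h1
        have h2 := inv_mem h1
        rwa [mul_inv_rev, inv_inv] at h2 }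
  have hle : ⁅IA (FreeGroup ι), IA (FreeGroup ι)⁆ ≤ T := by
    rw [Subgroup.commutator_le]
    intro α hα β hβ
    let π := QuotientGroup.mk' K
    have hπ : ∀ {a b : FreeGroup ι}, π a = π b ↔ a * b⁻¹ ∈ K := by
      intro a b
      rw [← div_eq_mul_inv, ← QuotientGroup.eq_one_iff]
      show π a = π b ↔ π (a / b) = 1
      rw [map_div, div_eq_one]
    -- values in the derived subgroup are central modulo `K`
    have hcen : ∀ a ∈ commutator (FreeGroup ι), ∀ y, π a * π y = π y * π a := by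
      intro a ha
      rw [commutator_eq_closure] at ha
      induction ha using Subgroup.closure_induction with
      | mem x hx =>
        obtain ⟨u, v, rfl⟩ := hx
        intro y
        have h1 : π ⁅⁅u, v⁆, y⁆ = 1 := (QuotientGroup.eq_one_iff _).2 (hcl u v y)
        rw [map_commutatorElement] at h1
        exact (commutatorElement_eq_one_iff_commute.1 h1).eq
      | one => intro y; simp
      | mul x y _ _ hx hy =>
        intro z
        rw [map_mul, mul_assoc, hy, ← mul_assoc, hx, mul_assoc]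
      | inv x _ hx =>
        intro z
        have h1 : Commute (π x) (π z) := hx z
        rw [map_inv]
        exact h1.inv_left.eq
    have hIA : ∀ {α : MulAut (FreeGroup ι)}, α ∈ IA (FreeGroup ι) → ∀ x,
        x⁻¹ * α x ∈ commutator (FreeGroup ι) := by
      intro α hα x
      have h1 : Abelianization.of (α x) = Abelianization.of x := hα x
      have h2 : x⁻¹ * α x ∈ (Abelianization.of : FreeGroup ι →* _).ker := by
        rw [MonoidHom.mem_ker, map_mul, map_inv, h1, inv_mul_cancel]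
      rwa [Abelianization.ker_of] at h2
    have hfix : ∀ {α : MulAut (FreeGroup ι)}, α ∈ IA (FreeGroup ι) →
        ∀ b ∈ commutator (FreeGroup ι), π (α b) = π b := by
      intro α hα b hb
      rw [commutator_eq_closure] at hb
      induction hb using Subgroup.closure_induction with
      | mem x hx =>
        obtain ⟨u, v, rfl⟩ := hx
        have e1 : ∀ x, π (α x) = π x * π (x⁻¹ * α x) := fun x => by
          rw [← map_mul, mul_inv_cancel_left]
        rw [map_commutatorElement, map_commutatorElement, map_commutatorElement]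
        rw [e1 u, e1 v]
        have c1 := hcen _ (hIA hα u)
        have c2 := hcen _ (hIA hα v)
        set a := π (u⁻¹ * α u)
        set b := π (v⁻¹ * α v)
        have ca : ∀ y, Commute a (π y) := c1
        have cb : ∀ y, Commute b (π y) := c2
        simp only [commutatorElement_def, mul_inv_rev]
        have hab : Commute a b := c1 _
        have e2 : π u * a * (π v * b) * (a⁻¹ * (π u)⁻¹) * (b⁻¹ * (π v)⁻¹) =
            π u * (π v) * (π u)⁻¹ * (π v)⁻¹ := by
          have h1 : a * (π v * b) * a⁻¹ = π v * b := by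
            have : Commute a (π v * b) := (ca v).mul_right hab
            rw [this.eq, mul_inv_cancel_right]
          have h2 : b * ((π u)⁻¹ * b⁻¹) = (π u)⁻¹ := by
            have : Commute b ((π u)⁻¹) := (cb u).inv_right
            rw [← mul_assoc, this.eq, mul_inv_cancel_right]
          calc π u * a * (π v * b) * (a⁻¹ * (π u)⁻¹) * (b⁻¹ * (π v)⁻¹)
              = π u * (a * (π v * b) * a⁻¹) * (π u)⁻¹ * (b⁻¹ * (π v)⁻¹) := by group
            _ = π u * π v * (b * ((π u)⁻¹ * b⁻¹)) * (π v)⁻¹ := by rw [h1]; group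
            _ = _ := by rw [h2]
        exact e2
      | one => simp
      | mul x y _ _ hx hy => rw [map_mul, map_mul, hx, hy, map_mul]
      | inv x _ hx => rw [map_inv, map_inv, hx, map_inv]
    have key : ∀ {α β : MulAut (FreeGroup ι)}, α ∈ IA (FreeGroup ι) → β ∈ IA (FreeGroup ι) →
        ∀ x, π (α (β x)) = π x * π (x⁻¹ * α x) * π (x⁻¹ * β x) := by
      intro α β hα hβ x
      have e1 : α (β x) = α x * α (x⁻¹ * β x) := by
        rw [← map_mul, mul_inv_cancel_left]
      rw [e1, map_mul, hfix hα _ (hIA hβ x)]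
      congr 1
      rw [← map_mul, mul_inv_cancel_left]
    intro x
    rw [← hπ]
    set y := (β * α)⁻¹ x with hy
    have hx : x = β (α y) := by
      rw [hy, ← MulAut.mul_apply, MulAut.apply_inv_self]
    have e3 : ⁅α, β⁆ x = α (β y) := by
      rw [commutatorElement_def, hy]
      simp only [MulAut.mul_apply, mul_inv_rev]
    rw [e3, hx, key hα hβ, key hβ hα, mul_assoc, mul_assoc,
      hcen _ (hIA hα y)]
  exact hle hψ

theorem comm_IA_le_of_C2 {Γ : Subgroup (MulAut (FreeGroup (Fin n)))} (h : C2 Γ) :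
    ⁅IA (FreeGroup (Fin n)), IA (FreeGroup (Fin n))⁆ ≤ Γ := by
  obtain ⟨K, hK, -, hcl, hΓ⟩ := h
  intro ψ hψ
  refine hΓ ψ ⟨1, fun x => ?_⟩
  rw [one_mul, inv_one, mul_one]
  exact comm_IA_triv hcl hψ x

theorem exists_cck (hn : 3 ≤ n) {N : Subgroup (MulAut (FreeGroup (Fin n)))} [hN : N.Normal]
    [hfi : N.FiniteIndex]
    (h : N.relIndex ⁅IA (FreeGroup (Fin n)), IA (FreeGroup (Fin n))⁆ <
      2 ^ ((n - 1) * (n - 2) / 2)) :
    ∃ i j k : Fin n, i ≠ j ∧ i ≠ k ∧ j ≠ k ∧ cc i ⁅of j, of k⁆ ∈ N := by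
  by_contra hcon
  push Not at hcon
  obtain ⟨m, rfl⟩ : ∃ m, n = m + 1 := ⟨n - 1, by omega⟩
  rcases Nat.lt_or_ge m 3 with hm | hm
  · obtain rfl : m = 2 := by omega
    have h1 : N.relIndex ⁅IA (FreeGroup (Fin (2 + 1))), IA (FreeGroup (Fin (2 + 1)))⁆ < 2 := h
    have h0 : N.relIndex ⁅IA (FreeGroup (Fin (2 + 1))), IA (FreeGroup (Fin (2 + 1)))⁆ ≠ 0 :=
      (inferInstance : (N.subgroupOf ⁅IA (FreeGroup (Fin (2 + 1))),
        IA (FreeGroup (Fin (2 + 1)))⁆).FiniteIndex).index_ne_zero
    have h2 : N.relIndex ⁅IA (FreeGroup (Fin (2 + 1))), IA (FreeGroup (Fin (2 + 1)))⁆ = 1 := by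
      omega
    rw [Subgroup.relIndex_eq_one] at h2
    refine hcon 0 1 2 (by decide) (by decide) (by decide) (h2 ?_)
    rw [map_commutatorElement]
    exact Subgroup.commutator_mem_commutator (cc_mem_IA _ _) (cc_mem_IA _ _)
  · have := relIndex_ge (N := N) (0 : Fin (m + 1)) (e := fun l => Fin.ofNat (m + 1) (l + 1))
      (m := m) hm (fun a ha b hb hab => by
        have h1 := congrArg Fin.val hab
        simp only [Fin.ofNat] at h1
        rw [Nat.mod_eq_of_lt (by omega), Nat.mod_eq_of_lt (by omega)] at h1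
        omega) (fun a ha hab => by
        have h1 := congrArg Fin.val hab
        simp only [Fin.ofNat] at h1
        rw [Nat.mod_eq_of_lt (by omega)] at h1
        simp at h1) (fun p l hp hl hpl => hcon 0 p l hp.symm hl.symm hpl)
    have e1 : (m + 1 - 1) * (m + 1 - 2) = m * (m - 1) := rfl
    rw [e1] at h
    omega

/-- **Gap theorem.** -/
theorem gap_main (hn : 3 ≤ n) (N : Subgroup (MulAut (FreeGroup (Fin n)))) (hN : N.Normal)
    (hfi : N.FiniteIndex) (hinn : ∀ g, MulAut.conj g ∈ N) :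
    (C2 N ↔ N.relIndex ⁅IA (FreeGroup (Fin n)), IA (FreeGroup (Fin n))⁆ <
      2 ^ ((n - 1) * (n - 2) / 2)) ∧
    (C2 N ↔ ∃ i j k : Fin n, i ≠ j ∧ i ≠ k ∧ j ≠ k ∧ cc i ⁅of j, of k⁆ ∈ N) := by
  have h1 : (∃ i j k : Fin n, i ≠ j ∧ i ≠ k ∧ j ≠ k ∧ cc i ⁅of j, of k⁆ ∈ N) → C2 N := by
    rintro ⟨i, j, k, hij, hik, hjk, h⟩
    exact C2_of_step hn (step_of_cck hinn hij hik hjk h)
  have h2 := exists_cck hn (N := N)
  have h3 : C2 N → N.relIndex ⁅IA (FreeGroup (Fin n)), IA (FreeGroup (Fin n))⁆ = 1 := fun h =>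
    Subgroup.relIndex_eq_one.2 (comm_IA_le_of_C2 h)
  have h4 : 1 < 2 ^ ((n - 1) * (n - 2) / 2) := by
    apply Nat.one_lt_two_pow
    have : 2 * 1 ≤ (n - 1) * (n - 2) := Nat.mul_le_mul (by omega) (by omega)
    omega
  refine ⟨⟨fun h => by rw [h3 h]; exact h4, fun h => h1 (h2 h)⟩, ⟨fun h => h2 ?_, h1⟩⟩
  rw [h3 h]
  exact h4

end

end Pool.Agent.Helper460_CSP
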