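import Pool.Agent.H12.CSP.A.Helper460_CSP.Sil6

set_option autoImplicit false
set_option linter.unusedSectionVars false
set_option linter.unusedSimpArgs false
set_option linter.unusedVariables false
set_option linter.unnecessarySeqFocus false

namespace Pool.Agent.Helper460_CSP

open Pool.Agent.Helper460_OutF
open FreeGroup (of)
open scoped commutatorElement

/-- The Heisenberg group. -/
@[ext] structure Hs (R : Type) where
  a : R
  b : R
  c : R

namespace Hs

variable {R : Type} [CommRing R]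

instance : Mul (Hs R) := ⟨fun x y => ⟨x.a + y.a, x.b + y.b, x.c + y.c + x.a * y.b⟩⟩

instance : One (Hs R) := ⟨⟨0, 0, 0⟩⟩

instance : Inv (Hs R) := ⟨fun x => ⟨-x.a, -x.b, -x.c + x.a * x.b⟩⟩

@[simp] lemma mul_a (x y : Hs R) : (x * y).a = x.a + y.a := rfl
@[simp] lemma mul_b (x y : Hs R) : (x * y).b = x.b + y.b := rfl
@[simp] lemma mul_c (x y : Hs R) : (x * y).c = x.c + y.c + x.a * y.b := rfl
@[simp] lemma one_a : (1 : Hs R).a = 0 := rfl
@[simp] lemma one_b : (1 : Hs R).b = 0 := rfl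
@[simp] lemma one_c : (1 : Hs R).c = 0 := rfl
@[simp] lemma inv_a (x : Hs R) : (x⁻¹).a = -x.a := rfl
@[simp] lemma inv_b (x : Hs R) : (x⁻¹).b = -x.b := rfl
@[simp] lemma inv_c (x : Hs R) : (x⁻¹).c = -x.c + x.a * x.b := rfl

instance : Group (Hs R) := Group.ofLeftAxioms
  (fun x y z => by ext <;> simp <;> ring)
  (fun x => by ext <;> simp)
  (fun x => by ext <;> simp)

lemma comm_eq (x y : Hs R) : ⁅x, y⁆ = ⟨0, 0, x.a * y.b - y.a * x.b⟩ := by
  rw [commutatorElement_def]
  ext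
  · simp
  · simp
  · simp; ring

lemma central {z : Hs R} (h1 : z.a = 0) (h2 : z.b = 0) (x : Hs R) : z * x = x * z := by
  ext
  · simp [h1]
  · simp [h2]
  · simp [h1, h2]; ring

lemma pow_c (x : Hs R) (n : ℕ) :
    (x ^ n).a = n * x.a ∧ (x ^ n).b = n * x.b ∧
      2 * (x ^ n).c = 2 * n * x.c + n * (n - 1) * (x.a * x.b) := by
  induction n with
  | zero => simp
  | succ n ih =>
    obtain ⟨h1, h2, h3⟩ := ih
    rw [pow_succ]
    refine ⟨?_, ?_, ?_⟩
    · rw [mul_a, h1]; push_cast; ring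
    · rw [mul_b, h2]; push_cast; ring
    · rw [mul_c, h1]; push_cast; linear_combination h3

/-- The functoriality. -/
def map {S : Type} [CommRing S] (f : R →+* S) : Hs R →* Hs S where
  toFun x := ⟨f x.a, f x.b, f x.c⟩
  map_one' := by ext <;> simp
  map_mul' x y := by ext <;> simp

lemma map_c {S : Type} [CommRing S] (f : R →+* S) (x : Hs R) : (map f x).c = f x.c := rfl

/-- The equivalence with triples. -/
def toProd (R : Type) : Hs R ≃ R × R × R where
  toFun x := (x.a, x.b, x.c)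
  invFun p := ⟨p.1, p.2.1, p.2.2⟩
  left_inv _ := rfl
  right_inv _ := rfl

instance [Finite R] : Finite (Hs R) := Finite.of_equiv _ (toProd R).symm

end Hs

variable {ι : Type} [DecidableEq ι] [Fintype ι]

section ph

variable (R : Type) [CommRing R]

/-- The basic representation in the Heisenberg group. -/
def ph (j k : ι) : FreeGroup ι →* Hs R :=
  FreeGroup.lift (fun l => ⟨if l = j then 1 else 0, if l = k then 1 else 0, 0⟩)

lemma ph_of (j k l : ι) :
    ph R j k (of l) = ⟨if l = j then 1 else 0, if l = k then 1 else 0, 0⟩ := by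
  unfold ph
  rw [FreeGroup.lift_apply_of]

lemma ph_a (j k : ι) (w : FreeGroup ι) : (ph R j k w).a = ((xv w j : ℤ) : R) := by
  induction w using FreeGroup.induction_on with
  | C1 => rw [map_one, xv_one]; simp
  | of l =>
    show (ph R j k (of l)).a = ((xv (of l) j : ℤ) : R)
    rw [ph_of, xv_of]
    by_cases h : l = j
    · subst h; simp
    · have h' : ¬ j = l := fun h2 => h h2.symm
      simp [h, h']
  | inv_of l ih =>
    show (ph R j k (of l)⁻¹).a = ((xv (of l)⁻¹ j : ℤ) : R)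
    have ih' : (ph R j k (of l)).a = ((xv (of l) j : ℤ) : R) := ih
    rw [map_inv, Hs.inv_a, ih', xv_inv]
    simp
  | mul x y hx hy => rw [map_mul, Hs.mul_a, hx, hy, xv_mul]; simp

lemma ph_b (j k : ι) (w : FreeGroup ι) : (ph R j k w).b = ((xv w k : ℤ) : R) := by
  induction w using FreeGroup.induction_on with
  | C1 => rw [map_one, xv_one]; simp
  | of l =>
    show (ph R j k (of l)).b = ((xv (of l) k : ℤ) : R)
    rw [ph_of, xv_of]
    by_cases h : l = k
    · subst h; simp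
    · have h' : ¬ k = l := fun h2 => h h2.symm
      simp [h, h']
  | inv_of l ih =>
    show (ph R j k (of l)⁻¹).b = ((xv (of l)⁻¹ k : ℤ) : R)
    have ih' : (ph R j k (of l)).b = ((xv (of l) k : ℤ) : R) := ih
    rw [map_inv, Hs.inv_b, ih', xv_inv]
    simp
  | mul x y hx hy => rw [map_mul, Hs.mul_b, hx, hy, xv_mul]; simp

lemma ph_cast (j k : ι) (w : FreeGroup ι) :
    (ph R j k w).c = (((ph ℤ j k w).c : ℤ) : R) := by
  have : ph R j k = (Hs.map (Int.castRingHom R)).comp (ph ℤ j k) := by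
    ext1 l
    rw [MonoidHom.comp_apply, ph_of, ph_of]
    ext
    · show _ = (Int.castRingHom R) _
      simp
    · show _ = (Int.castRingHom R) _
      simp
    · show _ = (Int.castRingHom R) _
      simp
  rw [this, MonoidHom.comp_apply, Hs.map_c]
  rfl

end ph

section J

/-- The coordinates of the Johnson homomorphism. -/
def Jo (δ : MulAut (FreeGroup ι)) : ι × ι × ι → ℤ := fun p => (ph ℤ p.2.1 p.2.2 (δ (of p.1))).c

/-- The defect. -/
def Ed {δ : MulAut (FreeGroup ι)} (hδ : δ ∈ IA (FreeGroup ι)) (j k : ι) :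
    FreeGroup ι →* Multiplicative ℤ where
  toFun x := Multiplicative.ofAdd ((ph ℤ j k (δ x)).c - (ph ℤ j k x).c)
  map_one' := by rw [map_one, map_one, sub_self]; rfl
  map_mul' x y := by
    rw [map_mul δ, map_mul, map_mul, ← ofAdd_add]
    congr 1
    have hx : xv (δ x) = xv x := xv_eq_iff.2 (hδ x)
    have hy : xv (δ y) = xv y := xv_eq_iff.2 (hδ y)
    rw [Hs.mul_c, Hs.mul_c, ph_a, ph_b, ph_a, ph_b, hx, hy]
    ring

lemma hom_xv {A : Type} [CommGroup A] (f : FreeGroup ι →* A) {x y : FreeGroup ι}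
    (h : xv x = xv y) : f x = f y := by
  rw [← Abelianization.lift_apply_of f x, ← Abelianization.lift_apply_of f y, xv_eq_iff.1 h]

lemma Jo_mul {δ δ' : MulAut (FreeGroup ι)} (hδ : δ ∈ IA (FreeGroup ι))
    (hδ' : δ' ∈ IA (FreeGroup ι)) : Jo (δ * δ') = Jo δ + Jo δ' := by
  funext p
  have h1 : Ed hδ p.2.1 p.2.2 (δ' (of p.1)) = Ed hδ p.2.1 p.2.2 (of p.1) :=
    hom_xv _ (xv_eq_iff.2 (hδ' _))
  have h2 : (ph ℤ p.2.1 p.2.2 (δ (δ' (of p.1)))).c - (ph ℤ p.2.1 p.2.2 (δ' (of p.1))).c =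
      (ph ℤ p.2.1 p.2.2 (δ (of p.1))).c - (ph ℤ p.2.1 p.2.2 (of p.1)).c := h1
  have h3 : (ph ℤ p.2.1 p.2.2 (of p.1)).c = 0 := by rw [ph_of]
  show (ph ℤ p.2.1 p.2.2 (δ (δ' (of p.1)))).c =
    (ph ℤ p.2.1 p.2.2 (δ (of p.1))).c + (ph ℤ p.2.1 p.2.2 (δ' (of p.1))).c
  omega

lemma Jo_one : Jo (1 : MulAut (FreeGroup ι)) = 0 := by
  funext p
  show (ph ℤ p.2.1 p.2.2 (of p.1)).c = 0
  rw [ph_of]

lemma Jo_inv {δ : MulAut (FreeGroup ι)} (hδ : δ ∈ IA (FreeGroup ι)) : Jo δ⁻¹ = - Jo δ := by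
  have h := Jo_mul hδ (inv_mem hδ)
  rw [mul_inv_cancel, Jo_one] at h
  exact (neg_eq_of_add_eq_zero_right h.symm).symm

lemma single_apply3 (i j k a b c : ι) :
    (Pi.single (i, j, k) (1 : ℤ) : ι × ι × ι → ℤ) (a, b, c) =
      (if i = a then 1 else 0) * ((if j = b then 1 else 0) * (if k = c then 1 else 0)) := by
  rw [Pi.single_apply]
  by_cases h : i = a ∧ j = b ∧ k = c
  · obtain ⟨rfl, rfl, rfl⟩ := h
    simp
  · rw [if_neg]
    · have h1 : (i ≠ a) ∨ (j ≠ b) ∨ (k ≠ c) := by tauto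
      rcases h1 with h1 | h1 | h1 <;> simp [h1]
    · intro h2
      rw [Prod.mk.injEq, Prod.mk.injEq] at h2
      exact h ⟨h2.1.symm, h2.2.1.symm, h2.2.2.symm⟩

lemma Jo_cc {i j : ι} (h : i ≠ j) : Jo (cc i (of j)) =
    Pi.single (i, i, j) 1 - Pi.single (i, j, i) 1 := by
  funext ⟨a, b, c⟩
  rw [Pi.sub_apply, single_apply3, single_apply3]
  show (ph ℤ b c (cc i (of j) (of a))).c = _
  by_cases ha : a = i
  · subst ha
    rw [cc_self, kil_ne h.symm, map_mul, map_mul, map_inv, ph_of, ph_of]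
    simp only [Hs.mul_c, Hs.inv_c, Hs.mul_a, Hs.inv_a, if_true]
    ring
  · rw [cc_ne ha, ph_of, if_neg (c := i = a) (fun h2 => ha h2.symm)]
    show (0 : ℤ) = _
    ring

lemma Jo_rr {i j k : ι} (hj : j ≠ i) (hk : k ≠ i) : Jo (rr i ⁅of j, of k⁆) =
    Pi.single (i, j, k) 1 - Pi.single (i, k, j) 1 := by
  funext ⟨a, b, c⟩
  rw [Pi.sub_apply, single_apply3, single_apply3]
  show (ph ℤ b c (rr i ⁅of j, of k⁆ (of a))).c = _
  by_cases ha : a = i
  · subst ha
    rw [rr_self, kil_comm_of hj hk, map_mul, map_commutatorElement, Hs.comm_eq, ph_of, ph_of,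
      ph_of]
    simp only [Hs.mul_c, if_true]
    ring
  · rw [rr_ne ha, ph_of, if_neg (c := i = a) (fun h2 => ha h2.symm)]
    show (0 : ℤ) = _
    ring

lemma Jo_conj (m : ι) : Jo (MulAut.conj (of m) : MulAut (FreeGroup ι)) =
    ∑ i, (Pi.single (i, m, i) (1 : ℤ) - Pi.single (i, i, m) (1 : ℤ)) := by
  funext ⟨a, b, c⟩
  rw [Finset.sum_apply, Finset.sum_eq_single a]
  · rw [Pi.sub_apply, single_apply3, single_apply3]
    show (ph ℤ b c (MulAut.conj (of m) (of a))).c = _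
    rw [MulAut.conj_apply, map_mul, map_mul, map_inv, ph_of, ph_of]
    simp only [Hs.mul_c, Hs.inv_c, Hs.mul_a, Hs.inv_b, if_true]
    ring
  · intro i _ hi
    rw [Pi.sub_apply, single_apply3, single_apply3, if_neg hi]
    ring
  · intro h
    exact absurd (Finset.mem_univ _) h

end J

end Pool.Agent.Helper460_CSP
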