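import Pool.Agent.H12.CSP.A.Helper460_CSP.Jo2

set_option autoImplicit false
set_option linter.unusedSectionVars false
set_option linter.unusedSimpArgs false
set_option linter.unusedVariables false
set_option linter.unnecessarySeqFocus false

namespace Pool.Agent.Helper460_CSP

open Pool.Agent.Helper460_OutF
open FreeGroup (of)
open scoped commutatorElement

section R

variable {P A : Type} [Fintype P] [DecidableEq P] [CommGroup A]

/-- The evaluation of exponents. -/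
def Rr (X : P → A) (b : P → ℤ) : A := ∏ p, X p ^ b p

lemma Rr_add (X : P → A) (b c : P → ℤ) : Rr X (b + c) = Rr X b * Rr X c := by
  unfold Rr
  rw [← Finset.prod_mul_distrib]
  apply Finset.prod_congr rfl
  intro p _
  exact zpow_add _ _ _

lemma Rr_zero (X : P → A) : Rr X 0 = 1 := by
  unfold Rr
  apply Finset.prod_eq_one
  intro p _
  exact zpow_zero _

lemma Rr_neg (X : P → A) (b : P → ℤ) : Rr X (-b) = (Rr X b)⁻¹ := by
  rw [eq_inv_iff_mul_eq_one, ← Rr_add, neg_add_cancel, Rr_zero]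

lemma Rr_sub (X : P → A) (b c : P → ℤ) : Rr X (b - c) = Rr X b * (Rr X c)⁻¹ := by
  rw [sub_eq_add_neg, Rr_add, Rr_neg]

lemma Rr_single (X : P → A) (p : P) : Rr X (Pi.single p 1) = X p := by
  unfold Rr
  rw [Finset.prod_eq_single p]
  · rw [Pi.single_eq_same, zpow_one]
  · intro b _ hb
    rw [Pi.single_eq_of_ne hb, zpow_zero]
  · intro h
    exact absurd (Finset.mem_univ _) h

lemma Rr_sum {T : Type} (s : Finset T) (X : P → A) (f : T → P → ℤ) :
    Rr X (∑ i ∈ s, f i) = ∏ i ∈ s, Rr X (f i) := by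
  classical
  induction s using Finset.induction_on with
  | empty => rw [Finset.sum_empty, Finset.prod_empty, Rr_zero]
  | insert a s ha ih => rw [Finset.sum_insert ha, Finset.prod_insert ha, Rr_add, ih]

lemma Rr_smul (X : P → A) (b : P → ℤ) (M : ℕ) : Rr X (fun p => (M : ℤ) * b p) = Rr X b ^ M := by
  unfold Rr
  rw [← Finset.prod_pow]
  apply Finset.prod_congr rfl
  intro p _
  show X p ^ ((M : ℤ) * b p) = _
  rw [mul_comm, zpow_mul, zpow_natCast]

end R

variable {ι : Type} [DecidableEq ι] [Fintype ι] [LinearOrder ι]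

section D

/-- The commutative group structure. -/
instance H0comm : CommGroup (H0 (q0 ι)) :=
  { (inferInstance : Group (H0 (q0 ι))) with
    mul_comm := fun a b => Subtype.ext (q0_kills.H0_comm a.2 b.2) }

/-- The generators of the abelian group. -/
def Xg (p : ι × ι × ι) : H0 (q0 ι) :=
  if p.2.1 = p.1 then ⟨q0 ι (cc p.1 (of p.2.2)), cc_mem_H0 _ _⟩
  else if p.2.2 = p.1 then 1
  else if p.2.1 < p.2.2 then ⟨tt (q0 ι) p.1 (of p.2.1) (of p.2.2), q0_kills.tt_mem_H0 _ _ _⟩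
  else 1

/-- The subgroup on which the formula holds. -/
def Dd : Subgroup (MulAut (FreeGroup ι)) where
  carrier := {δ | δ ∈ IA (FreeGroup ι) ∧ q0 ι δ = (Rr Xg (Jo δ) : H0 (q0 ι))}
  mul_mem' := by
    rintro a b ⟨ha, ha'⟩ ⟨hb, hb'⟩
    refine ⟨mul_mem ha hb, ?_⟩
    rw [map_mul, ha', hb', Jo_mul ha hb, Rr_add]
    rfl
  one_mem' := by
    refine ⟨one_mem _, ?_⟩
    rw [map_one, Jo_one, Rr_zero]
    rfl
  inv_mem' := by
    rintro a ⟨ha, ha'⟩
    refine ⟨inv_mem ha, ?_⟩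
    rw [map_inv, ha', Jo_inv ha, Rr_neg]
    rfl

lemma Xg_ii (i j : ι) : ((Xg (i, i, j) : H0 (q0 ι)) : MulAut (FreeGroup ι) ⧸ NN ι) =
    q0 ι (cc i (of j)) := by
  unfold Xg
  rw [if_pos rfl]

lemma Xg_iji (i j : ι) : (Xg (i, j, i) : H0 (q0 ι)) = 1 := by
  unfold Xg
  by_cases h : j = i
  · subst h
    rw [if_pos rfl]
    apply Subtype.ext
    show q0 ι (cc j (of j)) = 1
    rw [cc_of_self, map_one]
  · rw [if_neg h, if_pos rfl]

lemma cc_mem_Dd (i j : ι) : cc i (of j) ∈ (Dd : Subgroup (MulAut (FreeGroup ι))) := by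
  by_cases h : i = j
  · subst h
    rw [cc_of_self]
    exact one_mem _
  · refine ⟨cc_mem_IA _ _, ?_⟩
    rw [Jo_cc h, Rr_sub, Rr_single, Rr_single, Xg_iji, inv_one, mul_one, Xg_ii]

lemma rr_mem_Dd (i j k : ι) : rr i ⁅of j, of k⁆ ∈ (Dd : Subgroup (MulAut (FreeGroup ι))) := by
  by_cases hj : j = i
  · subst hj
    have : rr j ⁅of j, of k⁆ = 1 := by
      rw [map_commutatorElement, rr_of_self, commutatorElement_one_left]
    rw [this]
    exact one_mem _
  by_cases hk : k = i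
  · subst hk
    have : rr k ⁅of j, of k⁆ = 1 := by
      rw [map_commutatorElement, rr_of_self, commutatorElement_one_right]
    rw [this]
    exact one_mem _
  by_cases hjk : j = k
  · subst hjk
    rw [commutatorElement_self, map_one]
    exact one_mem _
  refine ⟨rr_comm_mem_IA _ _ _, ?_⟩
  rw [Jo_rr hj hk, Rr_sub, Rr_single, Rr_single]
  unfold Xg
  simp only [if_neg hj, if_neg hk]
  rcases lt_or_gt_of_ne hjk with h1 | h1
  · rw [if_pos h1, if_neg (not_lt.2 h1.le), inv_one, mul_one]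
    rfl
  · rw [if_pos h1, if_neg (not_lt.2 h1.le), one_mul]
    show q0 ι (rr i ⁅of j, of k⁆) = (tt (q0 ι) i (of k) (of j))⁻¹
    rw [← q0_kills.tt_swap]
    rfl

lemma conj_of_mem_Dd (m : ι) :
    (MulAut.conj (of m) : MulAut (FreeGroup ι)) ∈ (Dd : Subgroup (MulAut (FreeGroup ι))) := by
  refine ⟨conj_mem_IA _, ?_⟩
  have h1 : Rr (Xg (ι := ι)) (Jo (MulAut.conj (of m))) = ∏ i, (Xg (i, i, m))⁻¹ := by
    rw [Jo_conj, Rr_sum]
    apply Finset.prod_congr rfl
    intro i _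
    rw [Rr_sub, Rr_single, Rr_single, Xg_iji, one_mul]
  have h2 : ((∏ i, (Xg (i, i, m))⁻¹ : H0 (q0 ι)) : MulAut (FreeGroup ι) ⧸ NN ι) = 1 := by
    rw [Finset.prod_inv_distrib]
    show ((∏ i, Xg (i, i, m) : H0 (q0 ι)) : MulAut (FreeGroup ι) ⧸ NN ι)⁻¹ = 1
    rw [inv_eq_one]
    have h3 : (∏ i, Xg (i, i, m) : H0 (q0 ι)) = ∏ i ∈ Finset.univ.erase m, Xg (i, i, m) := by
      rw [← Finset.mul_prod_erase Finset.univ _ (Finset.mem_univ m), Xg_iji, one_mul]
    rw [h3]
    let l : List ι := (Finset.univ.erase m).toList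
    have hl : l.Nodup := Finset.nodup_toList _
    have h4 : (∏ i ∈ Finset.univ.erase m, Xg (i, i, m) : H0 (q0 ι)) =
        (l.map (fun i => Xg (i, i, m))).prod := (Finset.prod_map_toList _ _).symm
    have h5 : (((l.map (fun i => Xg (i, i, m))).prod : H0 (q0 ι)) :
        MulAut (FreeGroup ι) ⧸ NN ι) = q0 ι ((l.map (fun i => cc i (of m))).prod) := by
      rw [← Subgroup.coe_subtype, map_list_prod, map_list_prod, List.map_map, List.map_map]
      congr 1
      apply List.map_congr_left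
      intro i _
      exact Xg_ii i m
    rw [h4, h5]
    have h6 : (l.map (fun i => cc i (of m))).prod = MulAut.conj (of m)⁻¹ := by
      apply aut_ext
      intro j
      rw [prod_cc (of m) l hl, MulAut.conj_apply, inv_inv]
      · by_cases hj : j = m
        · subst hj
          rw [if_neg]
          · group
          · simp [l]
        · rw [if_pos]
          simp [l, hj]
      · intro i hi
        apply kil_ne
        intro h7
        simp [l, h7] at hi
    rw [h6]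
    exact q0_kills.inn _
  rw [h1, h2]
  exact q0_kills.inn _

lemma conj_mem_Dd (g : FreeGroup ι) :
    (MulAut.conj g : MulAut (FreeGroup ι)) ∈ (Dd : Subgroup (MulAut (FreeGroup ι))) := by
  induction g using FreeGroup.induction_on with
  | C1 => rw [map_one]; exact one_mem _
  | of j => exact conj_of_mem_Dd j
  | inv_of j ih =>
    show MulAut.conj (of j)⁻¹ ∈ _
    rw [map_inv]
    exact inv_mem (conj_of_mem_Dd j)
  | mul a b ha hb => rw [map_mul]; exact mul_mem ha hb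

lemma conj_cc_mem_Dd (i j k : ι) (b : MulAut (FreeGroup ι)) :
    b * cc i ⁅of j, of k⁆ * b⁻¹ ∈ (Dd : Subgroup (MulAut (FreeGroup ι))) := by
  have h1 : b * cc i ⁅of j, of k⁆ * b⁻¹ ∈ IA (FreeGroup ι) :=
    (IA_normal (FreeGroup ι)).conj_mem _ (cc_mem_IA _ _) b
  refine ⟨h1, ?_⟩
  have h2 : Jo (b * cc i ⁅of j, of k⁆ * b⁻¹) = 0 := by
    -- the partial conjugation does not change the image of any homomorphism to the Heisenberg group
    have key : ∀ (f : FreeGroup ι →* Hs ℤ) (x : FreeGroup ι), f (cc i ⁅of j, of k⁆ x) = f x := by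
      intro f x
      have e : f.comp (cc i ⁅of j, of k⁆).toMonoidHom = f := by
        ext1 l
        show f (cc i ⁅of j, of k⁆ (of l)) = f (of l)
        by_cases hl : l = i
        · subst hl
          have hz : ∃ z : Hs ℤ, f (kil l ⁅of j, of k⁆) = z ∧ z.a = 0 ∧ z.b = 0 := by
            refine ⟨_, rfl, ?_, ?_⟩ <;>
              rw [map_commutatorElement, map_commutatorElement, Hs.comm_eq]
          obtain ⟨z, hz1, hz2, hz3⟩ := hz
          rw [cc_self, map_mul, map_mul, map_inv, hz1, mul_assoc, ← Hs.central hz2 hz3,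
            inv_mul_cancel_left]
        · rw [cc_ne hl]
      exact DFunLike.congr_fun e x
    funext p
    show (ph ℤ p.2.1 p.2.2 (b (cc i ⁅of j, of k⁆ (b⁻¹ (of p.1))))).c = 0
    have h3 := key ((ph ℤ p.2.1 p.2.2).comp b.toMonoidHom) (b⁻¹ (of p.1))
    have h4 : ph ℤ p.2.1 p.2.2 (b (cc i ⁅of j, of k⁆ (b⁻¹ (of p.1)))) =
        ph ℤ p.2.1 p.2.2 (b (b⁻¹ (of p.1))) := h3
    rw [h4, MulAut.apply_inv_self, ph_of]
  rw [h2, Rr_zero, map_mul, map_mul, q0_kills.cc_comm, mul_one, ← map_mul, mul_inv_cancel,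
    map_one]
  rfl

lemma NN_le_Dd : NN ι ≤ (Dd : Subgroup (MulAut (FreeGroup ι))) := by
  refine (Subgroup.closure_le _).2 ?_
  intro x hx
  rw [Group.mem_conjugatesOfSet_iff] at hx
  obtain ⟨a, ha, hax⟩ := hx
  obtain ⟨b, hb⟩ := isConj_iff.1 hax
  rw [← hb]
  rcases ha with ⟨g, rfl⟩ | ⟨i, j, k, h1, h2, rfl⟩
  · have e : b * MulAut.conj g * b⁻¹ = MulAut.conj (b g) := by
      rw [mul_inv_eq_iff_eq_mul]
      ext x
      simp [MulAut.conj_apply]
    rw [e]
    exact conj_mem_Dd _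
  · exact conj_cc_mem_Dd _ _ _ _

lemma IA_le_Dd : IA (FreeGroup ι) ≤ (Dd : Subgroup (MulAut (FreeGroup ι))) := by
  intro δ hδ
  have h1 : H0 (q0 ι) ≤ (Dd : Subgroup (MulAut (FreeGroup ι))).map (q0 ι) := by
    refine (Subgroup.closure_le _).2 ?_
    rintro a (⟨i, j, rfl⟩ | ⟨i, j, k, rfl⟩)
    · exact ⟨_, cc_mem_Dd i j, rfl⟩
    · exact ⟨_, rr_mem_Dd i j k, rfl⟩
  obtain ⟨y, hy, hxy⟩ := h1 (IA_H0 hδ)
  have h2 : y⁻¹ * δ ∈ NN ι := QuotientGroup.eq.1 hxy
  have h3 := mul_mem hy (NN_le_Dd h2)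
  rwa [mul_inv_cancel_left] at h3

/-- Powers of elements of the abelian group lie in the image of `N1`. -/
lemma H0_pow {M : ℕ} (hM : 0 < M) {x : MulAut (FreeGroup ι) ⧸ NN ι} (hx : x ∈ H0 (q0 ι)) :
    x ^ M ∈ (N1 ι M).map (q0 ι) := by
  have hst := N1_step (ι := ι) hM
  let q1 : MulAut (FreeGroup ι) →* MulAut (FreeGroup ι) ⧸ N1 ι M := QuotientGroup.mk' _
  have hq1 : ∀ x, q1 x = 1 ↔ x ∈ N1 ι M := fun x => QuotientGroup.eq_one_iff x
  have hk : Kills q1 := ⟨fun g => (hq1 _).2 (hst.inn g),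
    fun i j k h1 h2 => (hq1 _).2 (hst.cck i j k h1 h2)⟩
  have hpow := hk.XX_pow (M := M) (fun i j hij => by
    rw [← map_pow]; exact (hq1 _).2 (hst.rrp i j hij))
  induction hx using Subgroup.closure_induction with
  | mem a ha =>
    rcases ha with ⟨i, j, rfl⟩ | ⟨i, j, k, rfl⟩
    · have h1 := hpow _ (Or.inl ⟨i, j, rfl⟩)
      rw [← map_pow] at h1
      exact ⟨_, (hq1 _).1 h1, map_pow _ _ _⟩
    · have h1 := hpow _ (Or.inr ⟨i, j, k, rfl⟩)
      unfold tt at h1 ⊢
      rw [← map_pow] at h1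
      exact ⟨_, (hq1 _).1 h1, map_pow _ _ _⟩
  | one => rw [one_pow]; exact one_mem _
  | mul a b ha hb h1 h2 =>
    have hc : Commute a b := q0_kills.H0_comm ha hb
    rw [hc.mul_pow]
    exact mul_mem h1 h2
  | inv a ha h1 => rw [inv_pow]; exact inv_mem h1

/-- **The Johnson part.** -/
theorem johnson {M : ℕ} (hM : 0 < M) {δ : MulAut (FreeGroup ι)} (hδ : δ ∈ IA (FreeGroup ι))
    (h : ∀ (f : FreeGroup ι →* Hs (ZMod M)) (x : FreeGroup ι), f (δ x) = f x) :
    δ ∈ N1 ι M := by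
  have h1 : ∀ p, ∃ t : ℤ, Jo δ p = (M : ℤ) * t := by
    intro p
    have h2 := h (ph (ZMod M) p.2.1 p.2.2) (of p.1)
    have h3 := congrArg Hs.c h2
    rw [ph_cast, ph_of] at h3
    have h4 : ((Jo δ p : ℤ) : ZMod M) = 0 := h3
    exact (ZMod.intCast_zmod_eq_zero_iff_dvd _ _).1 h4
  choose b hb using h1
  have h2 : Jo δ = fun p => (M : ℤ) * b p := funext hb
  have h3 := (IA_le_Dd hδ).2
  rw [h2, Rr_smul] at h3
  have h4 : q0 ι δ ∈ (N1 ι M).map (q0 ι) := by
    rw [h3]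
    exact H0_pow hM (Rr Xg b : H0 (q0 ι)).2
  obtain ⟨y, hy, hxy⟩ := h4
  have h5 : y⁻¹ * δ ∈ NN ι := QuotientGroup.eq.1 hxy
  have h6 := mul_mem hy (NN_le_N1 hM h5)
  rwa [mul_inv_cancel_left] at h6

end D

end Pool.Agent.Helper460_CSP
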