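import Mathlib

set_option autoImplicit false
set_option linter.unusedSectionVars false
set_option linter.unusedSimpArgs false
set_option linter.unusedVariables false
set_option linter.unnecessarySeqFocus false

namespace Pool.Agent.Helper460_CSP

open Matrix
open scoped commutatorElement

section tv

variable {ι : Type} [DecidableEq ι] [Fintype ι]

/-- The elementary matrix with `t` at the place `(i, j)`. -/
def tv (i j : ι) (h : i ≠ j) (t : ℤ) : SpecialLinearGroup ι ℤ :=
  ⟨transvection i j t, det_transvection_of_ne i j h t⟩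

lemma tv_add (i j : ι) (h : i ≠ j) (s t : ℤ) : tv i j h (s + t) = tv i j h s * tv i j h t := by
  apply Subtype.ext
  exact (transvection_mul_transvection_same i j h s t).symm

lemma tv_zero (i j : ι) (h : i ≠ j) : tv i j h 0 = 1 := by
  apply Subtype.ext
  exact transvection_zero i j

/-- The elementary matrices as a homomorphism. -/
def tvh (i j : ι) (h : i ≠ j) : Multiplicative ℤ →* SpecialLinearGroup ι ℤ where
  toFun := fun t => tv i j h (Multiplicative.toAdd t)
  map_one' := tv_zero i j h
  map_mul' := fun s t => tv_add i j h _ _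

lemma tv_mul_zpow (i j : ι) (h : i ≠ j) (s t : ℤ) : tv i j h (s * t) = tv i j h s ^ t := by
  have h1 := map_zpow (tvh i j h) (Multiplicative.ofAdd s) t
  rw [← ofAdd_zsmul, smul_eq_mul, mul_comm] at h1
  exact h1

/-- The underlying matrix. -/
def mt (A : SpecialLinearGroup ι ℤ) : Matrix ι ι ℤ := A.1

lemma mt_mul (A B : SpecialLinearGroup ι ℤ) : mt (A * B) = mt A * mt B := rfl

lemma mt_one : mt (1 : SpecialLinearGroup ι ℤ) = 1 := rfl

lemma mt_inj {A B : SpecialLinearGroup ι ℤ} (h : mt A = mt B) : A = B := Subtype.ext h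

lemma tv_mem {N : Subgroup (SpecialLinearGroup ι ℤ)} {M : ℤ} {i j : ι} {h : i ≠ j}
    (hN : tv i j h M ∈ N) {t : ℤ} (ht : M ∣ t) : tv i j h t ∈ N := by
  obtain ⟨s, rfl⟩ := ht
  rw [tv_mul_zpow]
  exact N.zpow_mem hN s

end tv

section three

/-- The special linear group of size three. -/
abbrev S3 := SpecialLinearGroup (Fin 3) ℤ

lemma n01 : (0 : Fin 3) ≠ 1 := by decide
lemma n02 : (0 : Fin 3) ≠ 2 := by decide
lemma n12 : (1 : Fin 3) ≠ 2 := by decide
lemma n10 : (1 : Fin 3) ≠ 0 := by decide
lemma n20 : (2 : Fin 3) ≠ 0 := by decide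
lemma n21 : (2 : Fin 3) ≠ 1 := by decide

lemma c01 (t : ℤ) : mt (tv 0 1 n01 t : S3) = !![1, t, 0; 0, 1, 0; 0, 0, 1] := by
  ext i j; fin_cases i <;> fin_cases j <;> simp [mt, tv, transvection, Matrix.single]
lemma c02 (t : ℤ) : mt (tv 0 2 n02 t : S3) = !![1, 0, t; 0, 1, 0; 0, 0, 1] := by
  ext i j; fin_cases i <;> fin_cases j <;> simp [mt, tv, transvection, Matrix.single]
lemma c12 (t : ℤ) : mt (tv 1 2 n12 t : S3) = !![1, 0, 0; 0, 1, t; 0, 0, 1] := by
  ext i j; fin_cases i <;> fin_cases j <;> simp [mt, tv, transvection, Matrix.single]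
lemma c10 (t : ℤ) : mt (tv 1 0 n10 t : S3) = !![1, 0, 0; t, 1, 0; 0, 0, 1] := by
  ext i j; fin_cases i <;> fin_cases j <;> simp [mt, tv, transvection, Matrix.single]
lemma c20 (t : ℤ) : mt (tv 2 0 n20 t : S3) = !![1, 0, 0; 0, 1, 0; t, 0, 1] := by
  ext i j; fin_cases i <;> fin_cases j <;> simp [mt, tv, transvection, Matrix.single]
lemma c21 (t : ℤ) : mt (tv 2 1 n21 t : S3) = !![1, 0, 0; 0, 1, 0; 0, t, 1] := by
  ext i j; fin_cases i <;> fin_cases j <;> simp [mt, tv, transvection, Matrix.single]

/-- The block in the first two coordinates. -/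
def B12 (a b c d : ℤ) (h : a * d - b * c = 1) : S3 :=
  ⟨!![a, b, 0; c, d, 0; 0, 0, 1], by rw [Matrix.det_fin_three]; simp; linarith⟩

/-- The block in the last two coordinates. -/
def B23 (a b c d : ℤ) (h : a * d - b * c = 1) : S3 :=
  ⟨!![1, 0, 0; 0, a, b; 0, c, d], by rw [Matrix.det_fin_three]; simp; linarith⟩

/-- The block in the outer coordinates. -/
def B13 (a b c d : ℤ) (h : a * d - b * c = 1) : S3 :=
  ⟨!![a, 0, b; 0, 1, 0; c, 0, d], by rw [Matrix.det_fin_three]; simp; linarith⟩

lemma cB12 (a b c d : ℤ) (h : a * d - b * c = 1) :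
    mt (B12 a b c d h) = !![a, b, 0; c, d, 0; 0, 0, 1] := rfl
lemma cB23 (a b c d : ℤ) (h : a * d - b * c = 1) :
    mt (B23 a b c d h) = !![1, 0, 0; 0, a, b; 0, c, d] := rfl
lemma cB13 (a b c d : ℤ) (h : a * d - b * c = 1) :
    mt (B13 a b c d h) = !![a, 0, b; 0, 1, 0; c, 0, d] := rfl

lemma m3 (a b c d e f g h i a' b' c' d' e' f' g' h' i' : ℤ) :
    !![a, b, c; d, e, f; g, h, i] * !![a', b', c'; d', e', f'; g', h', i'] =
    !![a * a' + b * d' + c * g', a * b' + b * e' + c * h', a * c' + b * f' + c * i';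
       d * a' + e * d' + f * g', d * b' + e * e' + f * h', d * c' + e * f' + f * i';
       g * a' + h * d' + i * g', g * b' + h * e' + i * h', g * c' + h * f' + i * i'] := by
  ext r s; fin_cases r <;> fin_cases s <;> simp [Matrix.mul_apply, Fin.sum_univ_three]

/-- The permutation-like matrix exchanging the last two coordinates. -/
def P1 : S3 := tv 1 2 n12 1 * tv 2 1 n21 (-1) * tv 1 2 n12 1

/-- The permutation-like matrix exchanging the first two coordinates. -/
def P2 : S3 := tv 0 1 n01 1 * tv 1 0 n10 (-1) * tv 0 1 n01 1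

lemma cP1 : mt P1 = !![1, 0, 0; 0, 0, 1; 0, -1, 0] := by
  unfold P1
  rw [mt_mul, mt_mul, c12, c21, m3, m3]
  norm_num

lemma cP2 : mt P2 = !![0, 1, 0; -1, 0, 0; 0, 0, 1] := by
  unfold P2
  rw [mt_mul, mt_mul, c01, c10, m3, m3]
  norm_num

variable {M : ℤ} {N : Subgroup S3} [hNn : N.Normal]
  (hN : ∀ (i j : Fin 3) (h : i ≠ j), tv i j h M ∈ N)

include hN

lemma q_tv {i j : Fin 3} (h : i ≠ j) {t : ℤ} (ht : M ∣ t) : QuotientGroup.mk' N (tv i j h t) = 1 :=
  (QuotientGroup.eq_one_iff _).2 (tv_mem (hN i j h) ht)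

lemma q_tv_congr {i j : Fin 3} (h : i ≠ j) {s t : ℤ} (ht : M ∣ s - t) :
    QuotientGroup.mk' N (tv i j h s) = QuotientGroup.mk' N (tv i j h t) := by
  have : s = (s - t) + t := by ring
  rw [this, tv_add, map_mul, q_tv hN h ht, one_mul]

/-- Blocks commute with the elementary matrices in the quotient. -/
lemma block_comm (a b c d : ℤ) (h : a * d - b * c = 1) (ha : M ∣ a - 1) (hb : M ∣ b) (hc : M ∣ c)
    (hd : M ∣ d - 1) (i j : Fin 3) (hij : i ≠ j) (t : ℤ) :
    Commute (QuotientGroup.mk' N (B12 a b c d h)) (QuotientGroup.mk' N (tv i j hij t)) := by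
  have key02 : ∀ t, Commute (QuotientGroup.mk' N (B12 a b c d h))
      (QuotientGroup.mk' N (tv 0 2 n02 t)) := by
    intro t
    have e : B12 a b c d h * tv 0 2 n02 t =
        tv 0 2 n02 (a * t) * tv 1 2 n12 (c * t) * B12 a b c d h := by
      apply mt_inj
      simp only [mt_mul, cB12, c02, c12, m3]
      congr 1 <;> simp [mul_comm]
    have e2 := congrArg (QuotientGroup.mk' N) e
    rw [map_mul, map_mul, map_mul, q_tv hN n12 (hc.mul_right t), mul_one,
      q_tv_congr hN n02 (s := a * t) (t := t) (by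
        have : a * t - t = (a - 1) * t := by ring
        rw [this]; exact ha.mul_right t)] at e2
    exact e2
  have key12 : ∀ t, Commute (QuotientGroup.mk' N (B12 a b c d h))
      (QuotientGroup.mk' N (tv 1 2 n12 t)) := by
    intro t
    have e : B12 a b c d h * tv 1 2 n12 t =
        tv 0 2 n02 (b * t) * tv 1 2 n12 (d * t) * B12 a b c d h := by
      apply mt_inj
      simp only [mt_mul, cB12, c02, c12, m3]
      congr 1 <;> simp [mul_comm]
    have e2 := congrArg (QuotientGroup.mk' N) e
    rw [map_mul, map_mul, map_mul, q_tv hN n02 (hb.mul_right t), one_mul,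
      q_tv_congr hN n12 (s := d * t) (t := t) (by
        have : d * t - t = (d - 1) * t := by ring
        rw [this]; exact hd.mul_right t)] at e2
    exact e2
  have key20 : ∀ t, Commute (QuotientGroup.mk' N (B12 a b c d h))
      (QuotientGroup.mk' N (tv 2 0 n20 t)) := by
    intro t
    have e : tv 2 0 n20 t * B12 a b c d h =
        B12 a b c d h * (tv 2 0 n20 (a * t) * tv 2 1 n21 (b * t)) := by
      apply mt_inj
      simp only [mt_mul, cB12, c20, c21, m3]
      congr 1 <;> simp [mul_comm]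
    have e2 := congrArg (QuotientGroup.mk' N) e
    rw [map_mul, map_mul, map_mul, q_tv hN n21 (hb.mul_right t), mul_one,
      q_tv_congr hN n20 (s := a * t) (t := t) (by
        have : a * t - t = (a - 1) * t := by ring
        rw [this]; exact ha.mul_right t)] at e2
    exact e2.symm
  have key21 : ∀ t, Commute (QuotientGroup.mk' N (B12 a b c d h))
      (QuotientGroup.mk' N (tv 2 1 n21 t)) := by
    intro t
    have e : tv 2 1 n21 t * B12 a b c d h =
        B12 a b c d h * (tv 2 0 n20 (c * t) * tv 2 1 n21 (d * t)) := by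
      apply mt_inj
      simp only [mt_mul, cB12, c20, c21, m3]
      congr 1 <;> simp [mul_comm]
    have e2 := congrArg (QuotientGroup.mk' N) e
    rw [map_mul, map_mul, map_mul, q_tv hN n20 (hc.mul_right t), one_mul,
      q_tv_congr hN n21 (s := d * t) (t := t) (by
        have : d * t - t = (d - 1) * t := by ring
        rw [this]; exact hd.mul_right t)] at e2
    exact e2.symm
  have hcomm : ∀ x y : S3 ⧸ N, Commute (QuotientGroup.mk' N (B12 a b c d h)) x →
      Commute (QuotientGroup.mk' N (B12 a b c d h)) y →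
      Commute (QuotientGroup.mk' N (B12 a b c d h)) ⁅x, y⁆ := by
    intro x y hx hy
    rw [commutatorElement_def]
    exact ((hx.mul_right hy).mul_right hx.inv_right).mul_right hy.inv_right
  fin_cases i <;> fin_cases j
  · exact absurd rfl hij
  · have e : tv 0 1 n01 t = ⁅(tv 0 2 n02 t : S3), tv 2 1 n21 1⁆ := by
      rw [commutatorElement_def, eq_mul_inv_iff_mul_eq, eq_mul_inv_iff_mul_eq]
      apply mt_inj
      simp only [mt_mul, c01, c02, c21, m3]
      congr 1 <;> simp [mul_comm]
    show Commute _ (QuotientGroup.mk' N (tv 0 1 n01 t))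
    rw [e, map_commutatorElement]
    exact hcomm _ _ (key02 t) (key21 1)
  · exact key02 t
  · have e : tv 1 0 n10 t = ⁅(tv 1 2 n12 t : S3), tv 2 0 n20 1⁆ := by
      rw [commutatorElement_def, eq_mul_inv_iff_mul_eq, eq_mul_inv_iff_mul_eq]
      apply mt_inj
      simp only [mt_mul, c10, c12, c20, m3]
      congr 1 <;> simp [mul_comm]
    show Commute _ (QuotientGroup.mk' N (tv 1 0 n10 t))
    rw [e, map_commutatorElement]
    exact hcomm _ _ (key12 t) (key20 1)
  · exact absurd rfl hij
  · exact key12 t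
  · exact key20 t
  · exact key21 t
  · exact absurd rfl hij

end three

end Pool.Agent.Helper460_CSP
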