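import Pool.Agent.H12.CSP.A.Helper460_CSP.Men

set_option autoImplicit false
set_option linter.unusedSectionVars false
set_option linter.unusedSimpArgs false
set_option linter.unusedVariables false
set_option linter.unnecessarySeqFocus false

namespace Pool.Agent.Helper460_CSP

open Matrix
open scoped commutatorElement

variable {M : ℤ} {N : Subgroup S3} [hNn : N.Normal]
  (hN : ∀ (i j : Fin 3) (h : i ≠ j), tv i j h M ∈ N)

include hN

lemma cl_row (a b c d c' d' : ℤ) (h : a * d - b * c = 1) (h' : a * d' - b * c' = 1)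
    (ha : M ∣ a - 1) (hb : M ∣ b) (hc : M ∣ c) (hd : M ∣ d - 1) (hc' : M ∣ c') (hd' : M ∣ d' - 1) :
    QuotientGroup.mk' N (B12 a b c d h) = QuotientGroup.mk' N (B12 a b c' d' h') := by
  have e : B12 a b c' d' h' = tv 1 0 n10 (c' * d - d' * c) * B12 a b c d h := by
    apply mt_inj
    simp only [mt_mul, cB12, c10, m3]
    congr 1
    simp only [mul_zero, zero_mul, add_zero, zero_add, one_mul, mul_one]
    have e1 : (c' * d - d' * c) * a + c = c' := by linear_combination c' * h - c * h'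
    have e2 : (c' * d - d' * c) * b + d = d' := by linear_combination d' * h - d * h'
    rw [e1, e2]
  rw [e, map_mul, q_tv hN n10 ((hc'.mul_right d).sub (hc.mul_left d')), one_mul]

lemma cl_col (a b c d t : ℤ) (h : a * d - b * c = 1)
    (h' : a * (d + t * c) - (b + t * a) * c = 1) (ht : M ∣ t) :
    QuotientGroup.mk' N (B12 a (b + t * a) c (d + t * c) h') =
      QuotientGroup.mk' N (B12 a b c d h) := by
  have e : B12 a (b + t * a) c (d + t * c) h' = B12 a b c d h * tv 0 1 n01 t := by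
    apply mt_inj
    simp only [mt_mul, cB12, c01, m3]
    congr 1
    simp [mul_comm, add_comm]
  rw [e, map_mul, q_tv hN n01 ht, mul_one]

lemma cl_conj (a b c d t : ℤ) (h : a * d - b * c = 1)
    (h' : (a + t * b) * (d - t * b) - b * (c + t * d - t * (a + t * b)) = 1)
    (ha : M ∣ a - 1) (hb : M ∣ b) (hc : M ∣ c) (hd : M ∣ d - 1) :
    QuotientGroup.mk' N (B12 (a + t * b) b (c + t * d - t * (a + t * b)) (d - t * b) h') =
      QuotientGroup.mk' N (B12 a b c d h) := by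
  have e : tv 1 0 n10 t * B12 (a + t * b) b (c + t * d - t * (a + t * b)) (d - t * b) h' =
      B12 a b c d h * tv 1 0 n10 t := by
    apply mt_inj
    simp only [mt_mul, cB12, c10, m3]
    congr 1
    simp only [mul_zero, zero_mul, add_zero, zero_add, one_mul, mul_one]
    have e1 : t * (a + t * b) + (c + t * d - t * (a + t * b)) = c + d * t := by ring
    have e2 : t * b + (d - t * b) = d := by ring
    have e3 : a + t * b = a + b * t := by ring
    rw [e1, e2, e3]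
  have e2 := congrArg (QuotientGroup.mk' N) e
  rw [map_mul, map_mul, (block_comm hN a b c d h ha hb hc hd 1 0 n10 t).eq] at e2
  exact mul_left_cancel e2

lemma comm_P1 (a b c d : ℤ) (h : a * d - b * c = 1) (ha : M ∣ a - 1) (hb : M ∣ b) (hc : M ∣ c)
    (hd : M ∣ d - 1) :
    Commute (QuotientGroup.mk' N (B12 a b c d h)) (QuotientGroup.mk' N P1) := by
  have := block_comm hN a b c d h ha hb hc hd
  unfold P1
  rw [map_mul, map_mul]
  exact ((this _ _ _ _).mul_right (this _ _ _ _)).mul_right (this _ _ _ _)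

lemma comm_P2 (a b c d : ℤ) (h : a * d - b * c = 1) (ha : M ∣ a - 1) (hb : M ∣ b) (hc : M ∣ c)
    (hd : M ∣ d - 1) :
    Commute (QuotientGroup.mk' N (B12 a b c d h)) (QuotientGroup.mk' N P2) := by
  have := block_comm hN a b c d h ha hb hc hd
  unfold P2
  rw [map_mul, map_mul]
  exact ((this _ _ _ _).mul_right (this _ _ _ _)).mul_right (this _ _ _ _)

lemma cl_B13 (a b c d : ℤ) (h : a * d - b * c = 1) (ha : M ∣ a - 1) (hb : M ∣ b) (hc : M ∣ c)
    (hd : M ∣ d - 1) :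
    QuotientGroup.mk' N (B13 a b c d h) = QuotientGroup.mk' N (B12 a b c d h) := by
  have e : P1 * B13 a b c d h = B12 a b c d h * P1 := by
    apply mt_inj
    simp only [mt_mul, cB12, cB13, cP1, m3]
    congr 1
    simp
  have e2 := congrArg (QuotientGroup.mk' N) e
  rw [map_mul, map_mul, (comm_P1 hN a b c d h ha hb hc hd).eq] at e2
  exact mul_left_cancel e2

lemma cl_B23 (a b c d : ℤ) (h : a * d - b * c = 1) (ha : M ∣ a - 1) (hb : M ∣ b) (hc : M ∣ c)
    (hd : M ∣ d - 1) :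
    QuotientGroup.mk' N (B23 a b c d h) = QuotientGroup.mk' N (B12 a b c d h) := by
  have e : (P1 * P2) * B23 a b c d h = B12 a b c d h * (P1 * P2) := by
    apply mt_inj
    simp only [mt_mul, cB12, cB23, cP1, cP2, m3]
    congr 1
    simp
  have e2 := congrArg (QuotientGroup.mk' N) e
  rw [map_mul, map_mul (QuotientGroup.mk' N) (B12 a b c d h), map_mul (QuotientGroup.mk' N) P1 P2,
    ((comm_P1 hN a b c d h ha hb hc hd).mul_right (comm_P2 hN a b c d h ha hb hc hd)).eq] at e2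
  exact mul_left_cancel e2

lemma cl_mul (a b₁ c₁ d₁ b₂ c₂ d₂ : ℤ) (h₁ : a * d₁ - b₁ * c₁ = 1) (h₂ : a * d₂ - b₂ * c₂ = 1)
    (h : a * (d₂ - c₂ * (d₁ * b₂)) - (b₁ * b₂) * (-(c₁ * c₂)) = 1)
    (ha : M ∣ a - 1) (hb₁ : M ∣ b₁) (hc₁ : M ∣ c₁) (hb₂ : M ∣ b₂) (hc₂ : M ∣ c₂)
    (hd₂ : M ∣ d₂ - 1) :
    QuotientGroup.mk' N (B12 a b₁ c₁ d₁ h₁) * QuotientGroup.mk' N (B12 a b₂ c₂ d₂ h₂) =
      QuotientGroup.mk' N (B12 a (b₁ * b₂) (-(c₁ * c₂)) (d₂ - c₂ * (d₁ * b₂)) h) := by
  rw [← cl_B23 hN a b₂ c₂ d₂ h₂ ha hb₂ hc₂ hd₂]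
  rw [← cl_B13 hN a (b₁ * b₂) (-(c₁ * c₂)) (d₂ - c₂ * (d₁ * b₂)) h ha (hb₁.mul_right _)
    ((hc₁.mul_right _).neg_right) (by
      have : d₂ - c₂ * (d₁ * b₂) - 1 = (d₂ - 1) - c₂ * (d₁ * b₂) := by ring
      rw [this]
      exact hd₂.sub (hc₂.mul_right _))]
  have e : B12 a b₁ c₁ d₁ h₁ * B23 a b₂ c₂ d₂ h₂ =
      tv 2 1 n21 c₂ * B13 a (b₁ * b₂) (-(c₁ * c₂)) (d₂ - c₂ * (d₁ * b₂)) h *
        tv 1 2 n12 (d₁ * b₂) * tv 1 0 n10 c₁ * tv 0 1 n01 b₁ := by
    apply mt_inj
    simp only [mt_mul, cB12, cB13, cB23, c21, c12, c10, c01, m3]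
    congr 1
    simp only [mul_zero, zero_mul, add_zero, zero_add, one_mul, mul_one]
    have e1 : d₁ * a = c₁ * b₁ + 1 := by linear_combination h₁
    have e2 : c₂ * c₁ = c₂ * c₁ := rfl
    have e3 : -(c₁ * c₂) + c₂ * c₁ = 0 := by ring
    have e4 : (-(c₁ * c₂) + c₂ * c₁) * b₁ + c₂ = c₂ := by rw [e3]; ring
    have e5 : c₂ * (d₁ * b₂) + (d₂ - c₂ * (d₁ * b₂)) = d₂ := by ring
    rw [e1, e4, e5, e3, mul_comm b₁ a]
  rw [← map_mul, e, map_mul, map_mul, map_mul, map_mul, q_tv hN n21 hc₂,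
    q_tv hN n12 (hb₂.mul_left _), q_tv hN n10 hc₁, q_tv hN n01 hb₁, one_mul, mul_one, mul_one,
    mul_one]

omit hN hNn in
lemma ex_bez {M a b : ℤ} (ha : M ∣ a - 1) (hb : M ∣ b) (h : IsCoprime a b) :
    ∃ c d, a * d - b * c = 1 ∧ M ∣ c ∧ M ∣ d - 1 := by
  obtain ⟨u, v, huv⟩ := h
  refine ⟨v * (a - 1), u + v * b, by linear_combination huv, ha.mul_left v, ?_⟩
  have e : u + v * b - 1 = v * b - (a - 1) * u - v * b := by linear_combination huv
  rw [e]
  exact ((hb.mul_left v).sub (ha.mul_right u)).sub (hb.mul_left v)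

open Classical in
/-- The Mennicke symbol. -/
noncomputable def bs (M : ℤ) (N : Subgroup S3) [N.Normal] (a b : ℤ) : S3 ⧸ N :=
  if h : ∃ c d, a * d - b * c = 1 ∧ M ∣ c ∧ M ∣ d - 1 then
    QuotientGroup.mk' N (B12 a b h.choose h.choose_spec.choose h.choose_spec.choose_spec.1)
  else 1

lemma bs_eq {a b c d : ℤ} (h : a * d - b * c = 1) (ha : M ∣ a - 1) (hb : M ∣ b) (hc : M ∣ c)
    (hd : M ∣ d - 1) : QuotientGroup.mk' N (B12 a b c d h) = bs M N a b := by
  have hex : ∃ c d, a * d - b * c = 1 ∧ M ∣ c ∧ M ∣ d - 1 := ⟨c, d, h, hc, hd⟩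
  unfold bs
  rw [dif_pos hex]
  exact cl_row hN a b c d _ _ h _ ha hb hc hd hex.choose_spec.choose_spec.2.1
    hex.choose_spec.choose_spec.2.2

lemma bs_add_right {a b : ℤ} (t : ℤ) (ha : M ∣ a - 1) (hb : M ∣ b) (h : IsCoprime a b)
    (ht : M ∣ t) : bs M N a (b + t * a) = bs M N a b := by
  obtain ⟨c, d, h1, h2, h3⟩ := ex_bez ha hb h
  rw [← bs_eq hN h1 ha hb h2 h3]
  have h4 : a * (d + t * c) - (b + t * a) * c = 1 := by linear_combination h1
  rw [← cl_col hN a b c d t h1 h4 ht]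
  refine (bs_eq hN h4 ha (hb.add (ht.mul_right a)) h2 ?_).symm
  have e : d + t * c - 1 = (d - 1) + t * c := by ring
  rw [e]
  exact h3.add (ht.mul_right c)

lemma bs_add_left {a b : ℤ} (t : ℤ) (ha : M ∣ a - 1) (hb : M ∣ b) (h : IsCoprime a b) :
    bs M N (a + t * b) b = bs M N a b := by
  obtain ⟨c, d, h1, h2, h3⟩ := ex_bez ha hb h
  rw [← bs_eq hN h1 ha hb h2 h3]
  have h4 : (a + t * b) * (d - t * b) - b * (c + t * d - t * (a + t * b)) = 1 := by
    linear_combination h1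
  rw [← cl_conj hN a b c d t h1 h4 ha hb h2 h3]
  refine (bs_eq hN h4 ?_ hb ?_ ?_).symm
  · have e : a + t * b - 1 = (a - 1) + t * b := by ring
    rw [e]
    exact ha.add (hb.mul_left t)
  · have e : c + t * d - t * (a + t * b) = c + (d - 1) * t - (a - 1) * t - b * (t * t) := by ring
    rw [e]
    exact ((h2.add (h3.mul_right t)).sub (ha.mul_right t)).sub (hb.mul_right _)
  · have e : d - t * b - 1 = (d - 1) - t * b := by ring
    rw [e]
    exact h3.sub (hb.mul_left t)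

lemma bs_mul {a b b' : ℤ} (ha : M ∣ a - 1) (hb : M ∣ b) (hb' : M ∣ b') (h : IsCoprime a b)
    (h' : IsCoprime a b') : bs M N a b * bs M N a b' = bs M N a (b * b') := by
  obtain ⟨c, d, h1, h2, h3⟩ := ex_bez ha hb h
  obtain ⟨c', d', h1', h2', h3'⟩ := ex_bez ha hb' h'
  have h4 : a * (d' - c' * (d * b')) - (b * b') * (-(c * c')) = 1 := by
    linear_combination h1' - b' * c' * h1
  rw [← bs_eq hN h1 ha hb h2 h3, ← bs_eq hN h1' ha hb' h2' h3',
    cl_mul hN a b c d b' c' d' h1 h1' h4 ha hb h2 hb' h2' h3']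
  refine bs_eq hN h4 ha (hb.mul_right _) ((h2.mul_right _).neg_right) ?_
  have e : d' - c' * (d * b') - 1 = (d' - 1) - c' * (d * b') := by ring
  rw [e]
  exact h3'.sub (h2'.mul_right _)

lemma bs_one_zero : bs M N 1 0 = 1 := by
  rw [← bs_eq hN (c := 0) (d := 1) (by ring) (by simp) (dvd_zero _) (dvd_zero _) (by simp)]
  have e : B12 1 0 0 1 (by ring) = 1 := by
    apply mt_inj
    rw [cB12, mt_one]
    ext i j
    fin_cases i <;> fin_cases j <;> simp
  rw [e, map_one]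

/-- The symbol with the second entry divided by `M`. -/
noncomputable def sg (M : ℤ) (N : Subgroup S3) [N.Normal] (a c : ℤ) : S3 ⧸ N := bs M N a (M * c)

omit hN hNn in
lemma cop_M {M a : ℤ} (ha : M ∣ a - 1) : IsCoprime a M := by
  obtain ⟨k, hk⟩ := ha
  exact ⟨1, -k, by linear_combination hk⟩

lemma sg_add_right {a c : ℤ} (t : ℤ) (ha : M ∣ a - 1) (h : IsCoprime a c) :
    sg M N a (c + t * a) = sg M N a c := by
  unfold sg
  have e : M * (c + t * a) = M * c + (M * t) * a := by ring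
  rw [e]
  exact bs_add_right hN _ ha (dvd_mul_right _ _) ((cop_M ha).mul_right h) (dvd_mul_right _ _)

lemma sg_add_left {a c : ℤ} (t : ℤ) (ha : M ∣ a - 1) (h : IsCoprime a c) :
    sg M N (a + t * (M * c)) c = sg M N a c :=
  bs_add_left hN t ha (dvd_mul_right _ _) ((cop_M ha).mul_right h)

lemma sg_unit {a : ℤ} (ha : M ∣ a - 1) {ε : ℤ} (hε : ε * ε = 1) : sg M N a ε = 1 := by
  obtain ⟨k, hk⟩ := ha
  have hcε : ∀ x, IsCoprime x ε := fun x => ⟨0, ε, by rw [zero_mul, zero_add]; exact hε⟩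
  have e : a = 1 + (k * ε) * (M * ε) := by linear_combination hk - k * M * hε
  have h1 : sg M N a ε = sg M N 1 ε := by
    rw [e]
    exact sg_add_left hN _ (by simp) (hcε _)
  rw [h1]
  have h2 : sg M N 1 ε = sg M N 1 0 := by
    have := sg_add_right hN (a := 1) (c := 0) ε (by simp) isCoprime_one_left
    rwa [zero_add, mul_one] at this
  rw [h2]
  unfold sg
  rw [mul_zero]
  exact bs_one_zero hN

lemma sg_mul {a c c' : ℤ} (ha : M ∣ a - 1) (h : IsCoprime a c) (h' : IsCoprime a c') :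
    sg M N a (c * c') = sg M N a c * sg M N a c' := by
  have hM := cop_M ha
  have h1 : sg M N a c * sg M N a c' = bs M N a ((M * c) * (M * c')) :=
    bs_mul hN ha (dvd_mul_right _ _) (dvd_mul_right _ _) (hM.mul_right h) (hM.mul_right h')
  have h2 : bs M N a M * bs M N a (M * (c * c')) = bs M N a (M * (M * (c * c'))) :=
    bs_mul hN ha (dvd_refl _) (dvd_mul_right _ _) hM (hM.mul_right (h.mul_right h'))
  have h3 : bs M N a M = 1 := by
    have := sg_unit hN ha (ε := 1) (by ring)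
    unfold sg at this
    rwa [mul_one] at this
  rw [h1, show (M * c) * (M * c') = M * (M * (c * c')) by ring, ← h2, h3, one_mul]
  rfl

lemma sg_pow {a c : ℤ} (ha : M ∣ a - 1) (h : IsCoprime a c) (n : ℕ) :
    sg M N a (c ^ n) = sg M N a c ^ n := by
  induction n with
  | zero => rw [pow_zero, pow_zero]; exact sg_unit hN ha (by ring)
  | succ n ih => rw [pow_succ, pow_succ, sg_mul hN ha h.pow_right h, ih]

end Pool.Agent.Helper460_CSP
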