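import Pool.Agent.H12.CSP.A.Helper460_CSP.Men2

set_option autoImplicit false
set_option linter.unusedSectionVars false
set_option linter.unusedSimpArgs false
set_option linter.unusedVariables false
set_option linter.unnecessarySeqFocus false

namespace Pool.Agent.Helper460_CSP

open Matrix

lemma exists_prime_int {q : ℕ} (hq : q ≠ 0) {r : ℤ} (h : IsCoprime r q) :
    ∃ p : ℕ, p.Prime ∧ (q : ℤ) ∣ (p : ℤ) - r := by
  have : NeZero q := ⟨hq⟩
  have hu : IsUnit ((r : ℤ) : ZMod q) := by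
    obtain ⟨u, v, huv⟩ := h
    refine IsUnit.of_mul_eq_one (u : ZMod q) ?_
    have e := congrArg (fun x : ℤ => (x : ZMod q)) huv
    push_cast at e
    rw [ZMod.natCast_self, mul_zero, add_zero] at e
    rw [mul_comm]
    exact e
  obtain ⟨p, -, hp, h2⟩ := Nat.forall_exists_prime_gt_and_eq_mod hu 0
  refine ⟨p, hp, ?_⟩
  rw [← ZMod.intCast_zmod_eq_zero_iff_dvd]
  push_cast
  rw [h2, sub_self]

lemma isCoprime_pow_prime {l k : ℕ} (hl : l.Prime) {x : ℤ} (h : ¬ (l : ℤ) ∣ x) :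
    IsCoprime x ((l ^ k : ℕ) : ℤ) := by
  push_cast
  apply IsCoprime.pow_right
  rw [isCoprime_comm]
  exact (Prime.coprime_iff_not_dvd (Nat.prime_iff_prime_int.1 hl)).2 h

/-- Existence of suitable primes. -/
lemma exists_valid {a m : ℤ} (hm : m ≠ 0) (h : IsCoprime a m) {l k : ℕ} (hl : l.Prime)
    (hk : 3 ≤ l ^ k) :
    ∃ (p : ℕ) (a' : ℤ), p.Prime ∧ (a' = p ∨ a' = -p) ∧ m ∣ a' - a ∧ ¬ l ^ k ∣ p - 1 := by
  -- make `a` coprime to `l`
  obtain ⟨a₁, h1, h2, h3⟩ : ∃ a₁ : ℤ, m ∣ a₁ - a ∧ IsCoprime a₁ m ∧ ¬ (l : ℤ) ∣ a₁ := by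
    by_cases hla : (l : ℤ) ∣ a
    · refine ⟨a + m, ⟨1, by ring⟩, ?_, ?_⟩
      · have := IsCoprime.add_mul_right_left h 1
        rwa [one_mul] at this
      · intro h3
        have h4 : (l : ℤ) ∣ m := by
          have := h3.sub hla
          rwa [add_sub_cancel_left] at this
        have h5 := h.isUnit_of_dvd' hla h4
        exact (Nat.prime_iff_prime_int.1 hl).not_isUnit h5
    · exact ⟨a, by simp, h, hla⟩
  obtain ⟨K, hK⟩ : ∃ K, K = l ^ k := ⟨_, rfl⟩
  rw [← hK] at hk ⊢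
  have hK1 : ∀ x : ℤ, ¬ (l : ℤ) ∣ x → IsCoprime x (K : ℤ) := by
    intro x hx
    rw [hK]
    exact isCoprime_pow_prime hl hx
  -- choose the sign
  obtain ⟨ε, hε, h4⟩ : ∃ ε : ℤ, (ε = 1 ∨ ε = -1) ∧ ¬ (K : ℤ) ∣ ε * a₁ - 1 := by
    by_cases h4 : (K : ℤ) ∣ a₁ - 1
    · refine ⟨-1, Or.inr rfl, fun h5 => ?_⟩
      have h6 : (K : ℤ) ∣ 2 := by
        have := (h4.add h5).neg_right
        have e : -(a₁ - 1 + (-1 * a₁ - 1)) = 2 := by ring
        rwa [e] at this
      have h7 := Int.le_of_dvd (by norm_num) h6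
      omega
    · exact ⟨1, Or.inl rfl, by rwa [one_mul]⟩
  have hεε : ε * ε = 1 := by rcases hε with rfl | rfl <;> norm_num
  have hq : m.natAbs * K ≠ 0 := by
    have := Int.natAbs_ne_zero.2 hm
    have hK0 : K ≠ 0 := by omega
    exact mul_ne_zero this hK0
  have hεu : IsUnit ε := IsUnit.of_mul_eq_one _ hεε
  have hcop : IsCoprime (ε * a₁) ((m.natAbs * K : ℕ) : ℤ) := by
    push_cast
    have h5 : IsCoprime a₁ (|m| * (K : ℤ)) := by
      apply IsCoprime.mul_right
      · rcases abs_choice m with h6 | h6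
        · rw [h6]; exact h2
        · rw [h6]; exact h2.neg_right
      · exact hK1 _ h3
    exact (isCoprime_mul_unit_left_left hεu _ _).2 h5
  obtain ⟨p, hp, h5⟩ := exists_prime_int hq hcop
  push_cast at h5
  have h6 : m ∣ (p : ℤ) - ε * a₁ := (dvd_trans ((dvd_abs m m).2 dvd_rfl) (dvd_mul_right _ _)).trans h5
  have h7 : (K : ℤ) ∣ (p : ℤ) - ε * a₁ := (dvd_mul_left _ _).trans h5
  refine ⟨p, ε * p, hp, ?_, ?_, ?_⟩
  · rcases hε with rfl | rfl
    · left; ring
    · right; ring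
  · have e : ε * (p : ℤ) - a = ε * ((p : ℤ) - ε * a₁) + (a₁ - a) := by
      linear_combination a₁ * hεε
    rw [e]
    exact (h6.mul_left _).add h1
  · intro h8
    apply h4
    have h9 : (K : ℤ) ∣ (p : ℤ) - 1 := by
      have h10 : ((p - 1 : ℕ) : ℤ) = (p : ℤ) - 1 := by
        have := hp.one_lt
        push_cast [this.le]
        ring
      rw [← h10]
      exact_mod_cast h8
    have e : ε * a₁ - 1 = ((p : ℤ) - 1) - ((p : ℤ) - ε * a₁) := by ring
    rw [e]
    exact h9.sub h7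

variable {M : ℤ} {N : Subgroup S3} [hNn : N.Normal]
  (hN : ∀ (i j : Fin 3) (h : i ≠ j), tv i j h M ∈ N)

include hN

lemma sg_congr_left {a a' c : ℤ} (ha : M ∣ a - 1) (h : IsCoprime a c) (h2 : M * c ∣ a' - a) :
    sg M N a' c = sg M N a c := by
  obtain ⟨t, ht⟩ := h2
  have e : a' = a + t * (M * c) := by linear_combination ht
  rw [e]
  exact sg_add_left hN t ha h

lemma sg_congr_right {a c c' : ℤ} (ha : M ∣ a - 1) (h : IsCoprime a c) (h2 : a ∣ c' - c) :
    sg M N a c' = sg M N a c := by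
  obtain ⟨t, ht⟩ := h2
  have e : c' = c + t * a := by linear_combination ht
  rw [e]
  exact sg_add_right hN t ha h

/-- Fermat for the symbol. -/
lemma sg_fermat {p : ℕ} (hp : p.Prime) {a c : ℤ} (ha' : a = p ∨ a = -p) (ha : M ∣ a - 1)
    (h : IsCoprime a c) : sg M N a c ^ (p - 1) = 1 := by
  rw [← sg_pow hN ha h]
  have : Fact p.Prime := ⟨hp⟩
  have hc0 : (c : ZMod p) ≠ 0 := by
    intro h0
    rw [ZMod.intCast_zmod_eq_zero_iff_dvd] at h0
    have h1 : (p : ℤ) ∣ a := by rcases ha' with rfl | rfl <;> simp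
    exact (Nat.prime_iff_prime_int.1 hp).not_isUnit (h.isUnit_of_dvd' h1 h0)
  have h2 : a ∣ c ^ (p - 1) - 1 := by
    have h3 : (p : ℤ) ∣ c ^ (p - 1) - 1 := by
      rw [← ZMod.intCast_zmod_eq_zero_iff_dvd]
      push_cast
      rw [ZMod.pow_card_sub_one_eq_one hc0, sub_self]
    rcases ha' with rfl | rfl
    · exact h3
    · exact (neg_dvd).2 h3
  rw [sg_congr_right hN ha (c := 1) isCoprime_one_right h2]
  exact sg_unit hN ha (by ring)

omit hN hNn in
lemma M_dvd {M a a' c : ℤ} (ha : M ∣ a - 1) (h2 : M * c ∣ a' - a) : M ∣ a' - 1 := by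
  have e : a' - 1 = (a' - a) + (a - 1) := by ring
  rw [e]
  exact ((dvd_mul_right _ _).trans h2).add ha

omit hN hNn in
lemma cop_of {M a a' c : ℤ} (h : IsCoprime a c) (h2 : M * c ∣ a' - a) : IsCoprime a' c := by
  obtain ⟨t, ht⟩ := h2
  have e : a' = a + (t * M) * c := by linear_combination ht
  rw [e]
  exact IsCoprime.add_mul_right_left h _

lemma sg_valid (hM : M ≠ 0) {a c : ℤ} (hc : c ≠ 0) (ha : M ∣ a - 1) (h : IsCoprime a c) {l k : ℕ}
    (hl : l.Prime) (hk : 3 ≤ l ^ k) :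
    ∃ (p : ℕ) (a' : ℤ), p.Prime ∧ (a' = p ∨ a' = -p) ∧ M * c ∣ a' - a ∧ ¬ l ^ k ∣ p - 1 ∧
      sg M N a c ^ (p - 1) = 1 := by
  obtain ⟨p, a', h1, h2, h3, h4⟩ :=
    exists_valid (mul_ne_zero hM hc) ((cop_M ha).mul_right h) hl hk
  refine ⟨p, a', h1, h2, h3, h4, ?_⟩
  rw [← sg_congr_left hN ha h h3]
  exact sg_fermat hN h1 h2 (M_dvd ha h3) (cop_of h h3)

lemma sg_sq (hM : M ≠ 0) {a c : ℤ} (hc : c ≠ 0) (ha : M ∣ a - 1) (h : IsCoprime a c) :
    sg M N a c ^ 2 = 1 := by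
  have hno : ∀ {l k : ℕ}, l.Prime → 3 ≤ l ^ k → ¬ l ^ k ∣ orderOf (sg M N a c) := by
    intro l k hl hk h5
    obtain ⟨p, a', h1, h2, h3, h4, h6⟩ := sg_valid hN hM hc ha h hl hk
    exact h4 (h5.trans (orderOf_dvd_of_pow_eq_one h6))
  have hd0 : orderOf (sg M N a c) ≠ 0 := by
    intro h0
    have := hno (l := 3) (k := 1) Nat.prime_three (by norm_num)
    rw [h0] at this
    exact this (dvd_zero _)
  have h2 : ∀ {d : ℕ}, d.Prime → d ∣ orderOf (sg M N a c) → d = 2 := by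
    intro d hd hdd
    by_contra hne
    have h3 : 3 ≤ d ^ 1 := by
      have := hd.two_le
      rw [pow_one]
      omega
    exact hno hd h3 (by rwa [pow_one])
  have h3 := Nat.eq_prime_pow_of_unique_prime_dvd hd0 h2
  apply orderOf_dvd_iff_pow_eq_one.1
  rw [h3]
  have h4 : (orderOf (sg M N a c)).primeFactorsList.length ≤ 1 := by
    by_contra hlt
    push Not at hlt
    apply hno (l := 2) (k := 2) Nat.prime_two (by norm_num)
    rw [h3]
    exact pow_dvd_pow 2 hlt
  calc 2 ^ (orderOf (sg M N a c)).primeFactorsList.length ∣ 2 ^ 1 := pow_dvd_pow 2 h4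
    _ = 2 := by norm_num

/-- **All Mennicke symbols are trivial.** -/
theorem sg_trivial (hM : M ≠ 0) {a c : ℤ} (ha : M ∣ a - 1) (h : IsCoprime a c) :
    sg M N a c = 1 := by
  by_cases hc : c = 0
  · subst hc
    have h1 : IsUnit a := isCoprime_zero_right.1 h
    have h2 : a * a = 1 := by
      rcases Int.isUnit_iff.1 h1 with rfl | rfl <;> norm_num
    have h3 := sg_add_right hN a ha h
    rw [zero_add, h2] at h3
    rw [← h3]
    exact sg_unit hN ha (by ring)
  · obtain ⟨p, a', h1, h2, h3, h4, h6⟩ := sg_valid hN hM hc ha h (l := 2) (k := 2) Nat.prime_two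
      (by norm_num)
    have hsq := sg_sq hN hM hc ha h
    by_cases hp2 : p = 2
    · subst hp2
      simpa using h6
    · have hodd := h1.eq_two_or_odd.resolve_left hp2
      have hmod : p % 4 = 3 := by omega
      obtain ⟨m, hm⟩ : ∃ m, p + 1 = 2 * (2 * m) := ⟨(p + 1) / 4, by omega⟩
      have ha' := M_dvd ha h3
      have hcop' := cop_of h h3
      have h7 : sg M N a' c = sg M N a c := sg_congr_left hN ha h h3
      have h8 : sg M N a c ^ (2 * m) = 1 := by rw [pow_mul, hsq, one_pow]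
      rw [← h7, ← sg_pow hN ha' hcop'] at h8
      have : Fact p.Prime := ⟨h1⟩
      have hc0 : (c : ZMod p) ≠ 0 := by
        intro h0
        rw [ZMod.intCast_zmod_eq_zero_iff_dvd] at h0
        have h1' : (p : ℤ) ∣ a' := by rcases h2 with rfl | rfl <;> simp
        exact (Nat.prime_iff_prime_int.1 h1).not_isUnit (hcop'.isUnit_of_dvd' h1' h0)
      have h9 : ((c : ZMod p) ^ (2 * m - 1)) ^ 2 = 1 := by
        rw [← pow_mul]
        have : (2 * m - 1) * 2 = p - 1 := by omega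
        rw [this]
        exact ZMod.pow_card_sub_one_eq_one hc0
      have h10 : (c : ZMod p) ^ (2 * m) = (c : ZMod p) ^ (2 * m - 1) * c := by
        rw [← pow_succ]
        congr 1
        omega
      obtain ⟨ε, hε, h11⟩ : ∃ ε : ℤ, ε * ε = 1 ∧ (c : ZMod p) ^ (2 * m) = ε * c := by
        rcases mul_self_eq_one_iff.1 ((sq _).symm.trans h9) with h12 | h12
        · exact ⟨1, by norm_num, by rw [h10, h12]; simp⟩
        · exact ⟨-1, by norm_num, by rw [h10, h12]; simp⟩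
      have h13 : a' ∣ c ^ (2 * m) - ε * c := by
        have h14 : (p : ℤ) ∣ c ^ (2 * m) - ε * c := by
          rw [← ZMod.intCast_zmod_eq_zero_iff_dvd]
          push_cast
          rw [h11, sub_self]
        rcases h2 with rfl | rfl
        · exact h14
        · exact (neg_dvd).2 h14
      have hcε : IsCoprime a' ε := ⟨0, ε, by rw [zero_mul, zero_add]; exact hε⟩
      rw [sg_congr_right hN ha' (hcε.mul_right hcop') h13, sg_mul hN ha' hcε hcop',
        sg_unit hN ha' hε, one_mul] at h8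
      rw [← h7, h8]

/-- **The blocks lie in `N`.** -/
theorem B12_mem (hM : M ≠ 0) {a b c d : ℤ} (h : a * d - b * c = 1) (ha : M ∣ a - 1) (hb : M ∣ b)
    (hc : M ∣ c) (hd : M ∣ d - 1) : B12 a b c d h ∈ N := by
  obtain ⟨b', rfl⟩ := hb
  rw [← QuotientGroup.ker_mk' N, MonoidHom.mem_ker,
    bs_eq hN h ha (dvd_mul_right _ _) hc hd]
  refine sg_trivial hN hM ha ?_
  exact ⟨d, -(M * c), by linear_combination h⟩

end Pool.Agent.Helper460_CSP
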