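import Pool.Agent.H12.CSP.A.Helper460_CSP.Sil1

set_option autoImplicit false
set_option linter.unusedSectionVars false
set_option linter.unusedSimpArgs false
set_option linter.unusedVariables false
set_option linter.unnecessarySeqFocus false

namespace Pool.Agent.Helper460_CSP

open Pool.Agent.Helper460_OutF
open FreeGroup (of)
open Pool.Agent.Helper156.OF (SP toAut toAut_gl gl nv gl_nv gl_true Lt SP.map_nv)
open scoped commutatorElement

variable {ι : Type} [DecidableEq ι] [Fintype ι]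

section sp

/-- The exchange of two letters. -/
def tauP (i j : ι) : SP ι := ⟨Equiv.prodCongr (Equiv.swap i j) (Equiv.refl Bool), fun _ => rfl⟩

/-- The inversion of a letter. -/
def rhoP (k : ι) : SP ι :=
  ⟨⟨fun x => if x.1 = k then nv x else x, fun x => if x.1 = k then nv x else x,
    fun x => by by_cases h : x.1 = k <;> simp [h], fun x => by by_cases h : x.1 = k <;> simp [h]⟩,
    fun x => by by_cases h : x.1 = k <;> simp [h]⟩

lemma tauP_apply (i j : ι) (x : Lt ι) :
    (tauP i j : Equiv.Perm (Lt ι)) x = (Equiv.swap i j x.1, x.2) := rfl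

lemma rhoP_apply (k : ι) (x : Lt ι) :
    (rhoP k : Equiv.Perm (Lt ι)) x = if x.1 = k then nv x else x := rfl

lemma toAut_tauP (i j l : ι) : toAut (tauP i j) (of l) = of (Equiv.swap i j l) := by
  rw [toAut_of, tauP_apply, gl_true]

lemma toAut_rhoP (k l : ι) : toAut (rhoP k) (of l) = if l = k then (of l)⁻¹ else of l := by
  rw [toAut_of, rhoP_apply]
  by_cases h : l = k
  · rw [if_pos h, if_pos h, gl_nv, gl_true]
  · rw [if_neg h, if_neg h, gl_true]

/-- The sign of a signed permutation at an index. -/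
def sgs (σ : SP ι) (i : ι) : ℤ := if ((σ : Equiv.Perm (Lt ι)) (i, true)).2 = true then 1 else -1

lemma xv_toAut (σ : SP ι) (i : ι) : xv (toAut σ (of i)) = Pi.single (spi σ i) (sgs σ i) := by
  rw [toAut_of]
  have hp : (σ : Equiv.Perm (Lt ι)) (i, true) =
      (spi σ i, ((σ : Equiv.Perm (Lt ι)) (i, true)).2) := rfl
  unfold sgs
  rw [hp]
  cases hb : ((σ : Equiv.Perm (Lt ι)) (i, true)).2
  · have hgl : (gl (spi σ i, false) : FreeGroup ι) = (of (spi σ i))⁻¹ := by
      have : ((spi σ i, false) : Lt ι) = nv (spi σ i, true) := rfl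
      rw [this, gl_nv, gl_true]
    rw [hgl, xv_inv, xv_of, if_neg (by simp)]
    exact (Pi.single_neg _ _).symm
  · have hgl : (gl (spi σ i, true) : FreeGroup ι) = (of (spi σ i)) := gl_true _
    rw [hgl, xv_of, if_pos rfl]

lemma sgs_cases (σ : SP ι) (i : ι) : sgs σ i = 1 ∨ sgs σ i = -1 := by
  unfold sgs
  split_ifs
  · exact Or.inl rfl
  · exact Or.inr rfl

lemma ac_toAut (σ : SP ι) (v : ι → ℤ) (i : ι) :
    ac (toAut σ) v (spi σ i) = sgs σ i * v i := by
  show ∑ j, mA (toAut σ) (spi σ i) j * v j = _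
  rw [Finset.sum_eq_single i]
  · show xv (toAut σ (of i)) (spi σ i) * v i = _
    rw [xv_toAut, Pi.single_eq_same]
  · intro j _ hj
    show xv (toAut σ (of j)) (spi σ i) * v j = _
    rw [xv_toAut, Pi.single_eq_of_ne, zero_mul]
    intro h
    exact hj (spi_inj σ h).symm
  · intro h
    exact absurd (Finset.mem_univ _) h

lemma spi_bij (σ : SP ι) : Function.Bijective (spi σ) :=
  Finite.injective_iff_bijective.1 (fun _ _ h => spi_inj σ h)

lemma nrm_toAut (σ : SP ι) (v : ι → ℤ) : nrm (ac (toAut σ) v) = nrm v := by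
  unfold nrm
  rw [← (spi_bij σ).sum_comp (fun k => (ac (toAut σ) v k).natAbs)]
  apply Finset.sum_congr rfl
  intro i _
  rw [ac_toAut]
  rcases sgs_cases σ i with h | h <;> rw [h]
  · rw [one_mul]
  · rw [neg_one_mul, Int.natAbs_neg]

/-- The signed permutations supported on `S`. -/
def WS (S : Finset ι) : Subgroup (SP ι) where
  carrier := {σ | ∀ k, k ∉ S → (σ : Equiv.Perm (Lt ι)) (k, true) = (k, true)}
  mul_mem' := by
    intro a b ha hb k hk
    show (a : Equiv.Perm (Lt ι)) ((b : Equiv.Perm (Lt ι)) (k, true)) = _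
    rw [hb k hk, ha k hk]
  one_mem' := fun k _ => rfl
  inv_mem' := by
    intro a ha k hk
    show (a : Equiv.Perm (Lt ι))⁻¹ (k, true) = _
    rw [Equiv.Perm.inv_eq_iff_eq]
    exact (ha k hk).symm

lemma mem_WS {S : Finset ι} {σ : SP ι} :
    σ ∈ WS S ↔ ∀ k, k ∉ S → (σ : Equiv.Perm (Lt ι)) (k, true) = (k, true) := Iff.rfl

lemma WS_spi {S : Finset ι} {σ : SP ι} (h : σ ∈ WS S) {i : ι} (hi : i ∈ S) : spi σ i ∈ S := by
  by_contra hcon
  have h1 := mem_WS.1 h _ hcon
  have h2 : spi σ (spi σ i) = spi σ i := by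
    show ((σ : Equiv.Perm (Lt ι)) (spi σ i, true)).1 = _
    rw [h1]
  have h3 := spi_inj σ h2
  exact hcon (by rw [h3]; exact hi)

lemma WS_spi_out {S : Finset ι} {σ : SP ι} (h : σ ∈ WS S) {i : ι} (hi : i ∉ S) : spi σ i = i :=
  congrArg Prod.fst (mem_WS.1 h i hi)

lemma WS_sgs_out {S : Finset ι} {σ : SP ι} (h : σ ∈ WS S) {i : ι} (hi : i ∉ S) : sgs σ i = 1 := by
  unfold sgs
  rw [mem_WS.1 h i hi]
  rfl

lemma tauP_mem {S : Finset ι} {i j : ι} (hi : i ∈ S) (hj : j ∈ S) : tauP i j ∈ WS S := by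
  intro k hk
  rw [tauP_apply]
  rw [Equiv.swap_apply_of_ne_of_ne (fun h => hk (by rw [show k = i from h]; exact hi))
    (fun h => hk (by rw [show k = j from h]; exact hj))]

lemma rhoP_mem {S : Finset ι} {i : ι} (hi : i ∈ S) : rhoP i ∈ WS S := by
  intro k hk
  rw [rhoP_apply, if_neg]
  intro h
  exact hk (by rw [show k = i from h]; exact hi)

end sp

/-- The assumptions on the normal subgroup `K`. -/
structure Nice (K : Subgroup (MulAut (FreeGroup ι))) : Prop where
  ccm : ∀ (i : ι) (w : FreeGroup ι), cc i w ∈ K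
  rrm : ∀ (i : ι) (u v : FreeGroup ι), rr i ⁅u, v⁆ ∈ K
  iam : K ≤ IA (FreeGroup ι)

lemma Ea_self {i j : ι} (h : i ≠ j) (t : ℤ) : Ea i j t (of i) = of i * of j ^ t := by
  rw [Ea_eq, rr_self, map_zpow, kil_ne h.symm]

lemma Ea_ne {i j l : ι} (h : l ≠ i) (t : ℤ) : Ea i j t (of l) = of l := by
  rw [Ea_eq, rr_ne h]

section rel

variable {K : Subgroup (MulAut (FreeGroup ι))} [hKn : K.Normal] (hK : Nice K)

include hK

lemma Nice.one {x : MulAut (FreeGroup ι)} (h : x ∈ K) : QuotientGroup.mk' K x = 1 :=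
  (QuotientGroup.eq_one_iff _).2 h

lemma Nice.ac_congr {x y : MulAut (FreeGroup ι)}
    (h : QuotientGroup.mk' K x = QuotientGroup.mk' K y) (v : ι → ℤ) : ac x v = ac y v := by
  have h1 : x⁻¹ * y ∈ K := QuotientGroup.eq.1 h
  have h2 := ac_IA (hK.iam h1) v
  rw [ac_mul] at h2
  calc ac x v = ac x (ac x⁻¹ (ac y v)) := by rw [h2]
    _ = ac y v := by rw [← ac_mul, mul_inv_cancel, ac_one]

lemma Nice.comm {i j k l : ι} (hij : i ≠ j) (hkl : k ≠ l) (hjk : j ≠ k) (hli : l ≠ i) (s t : ℤ) :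
    Commute (QuotientGroup.mk' K (Ea i j s)) (QuotientGroup.mk' K (Ea k l t)) := by
  unfold Ea
  rw [map_zpow, map_zpow]
  apply Commute.zpow_zpow
  by_cases hik : i = k
  · subst hik
    have := hK.one (hK.rrm i (of j) (of l))
    rwa [map_commutatorElement, map_commutatorElement, commutatorElement_eq_one_iff_commute] at this
  · have : rr i (of j) * rr k (of l) = rr k (of l) * rr i (of j) :=
      lr_lr_comm hik (map_one _) (kil_ne hjk) (map_one _) (kil_ne hli)
    show _ * _ = _ * _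
    rw [← map_mul, this, map_mul]

lemma Nice.steinberg {i j k : ι} (hij : i ≠ j) (hjk : j ≠ k) (hik : i ≠ k) (s t : ℤ) :
    QuotientGroup.mk' K (Ea j k t) * QuotientGroup.mk' K (Ea i j s) =
      QuotientGroup.mk' K (Ea i j s) * QuotientGroup.mk' K (Ea i k (s * t)) *
        QuotientGroup.mk' K (Ea j k t) := by
  have h1 : Ea j k t * rr i (of j) * (Ea j k t)⁻¹ = rr i (of j) * Ea i k t := by
    rw [Ea_eq j k t]
    have hp : Pres i (rr j (of k ^ t)) := pres_rr hij (by rw [map_zpow, kil_ne hik.symm])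
    rw [hp.rr, rr_self, map_mul, map_zpow (kil j), kil_ne hjk.symm, Ea_eq]
  have h2 : Ea j k t * Ea i j s * (Ea j k t)⁻¹ = (rr i (of j) * Ea i k t) ^ s := by
    rw [← h1, conj_zpow]
    rfl
  have h3 := congrArg (QuotientGroup.mk' K) h2
  have hc : Commute (QuotientGroup.mk' K (rr i (of j))) (QuotientGroup.mk' K (Ea i k t)) := by
    have := hK.comm hij hik hij.symm hik.symm 1 t
    unfold Ea at this ⊢
    rwa [zpow_one] at this
  rw [map_zpow, map_mul (QuotientGroup.mk' K) (rr i (of j)), hc.mul_zpow,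
    ← map_zpow (QuotientGroup.mk' K) (rr i (of j)), ← map_zpow (QuotientGroup.mk' K)] at h3
  have h4 : Ea i k t ^ s = Ea i k (s * t) := by
    unfold Ea
    rw [← zpow_mul, mul_comm]
  rw [h4, map_mul, map_mul, map_inv, mul_inv_eq_iff_eq_mul] at h3
  exact h3

lemma Nice.weyl {S : Finset ι} {i j : ι} (hij : i ≠ j) (hi : i ∈ S) (hj : j ∈ S) {ε : ℤ}
    (hε : ε = 1 ∨ ε = -1) : ∃ σ ∈ WS S, QuotientGroup.mk' K (Ea j i (-ε) * Ea i j ε) =
      QuotientGroup.mk' K (toAut σ * Ea j i ε) := by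
  have hs1 : ∀ l, l ≠ i → l ≠ j → Equiv.swap i j l = l := fun l h1 h2 =>
    Equiv.swap_apply_of_ne_of_ne h1 h2
  rcases hε with rfl | rfl
  · refine ⟨rhoP i * tauP i j, mul_mem (rhoP_mem hi) (tauP_mem hi hj), ?_⟩
    have e : Ea j i (-1) * Ea i j 1 * Ea j i (-1) = toAut (rhoP i * tauP i j) * cc i (of j) := by
      rw [map_mul]
      apply aut_ext
      intro l
      simp only [MulAut.mul_apply]
      by_cases h1 : l = j
      · subst h1
        rw [Ea_self hij.symm, cc_ne hij.symm, toAut_tauP, Equiv.swap_apply_right, toAut_rhoP,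
          if_pos rfl]
        simp only [map_mul, map_zpow, map_inv, Ea_self hij, Ea_self hij.symm, Ea_ne hij.symm,
          Ea_ne hij]
        group
      · by_cases h2 : l = i
        · subst h2
          rw [Ea_ne h1, Ea_self h1, cc_self, kil_ne (Ne.symm h1)]
          simp only [map_mul, map_zpow, map_inv, Ea_self h1, Ea_self (Ne.symm h1), Ea_ne h1,
            Ea_ne (Ne.symm h1), toAut_tauP, Equiv.swap_apply_left, Equiv.swap_apply_right,
            toAut_rhoP, if_true, if_neg (Ne.symm h1)]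
          group
        · rw [Ea_ne h1, Ea_ne h2, Ea_ne h1, cc_ne h2, toAut_tauP, hs1 l h2 h1, toAut_rhoP,
            if_neg h2]
    have e2 := congrArg (QuotientGroup.mk' K) e
    rw [map_mul _ (toAut _), hK.one (hK.ccm i _), mul_one] at e2
    rw [map_mul _ (toAut _), ← e2, ← map_mul]
    congr 1
    rw [mul_assoc, ← Ea_add]
    simp [Ea]
  · refine ⟨rhoP j * tauP i j, mul_mem (rhoP_mem hj) (tauP_mem hi hj), ?_⟩
    have e : Ea j i 1 * Ea i j (-1) * Ea j i 1 = toAut (rhoP j * tauP i j) * cc j (of i) := by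
      rw [map_mul]
      apply aut_ext
      intro l
      simp only [MulAut.mul_apply]
      by_cases h1 : l = j
      · subst h1
        rw [Ea_self hij.symm, cc_self, kil_ne hij]
        simp only [map_mul, map_zpow, map_inv, Ea_self hij, Ea_self hij.symm, Ea_ne hij.symm,
          Ea_ne hij, toAut_tauP, Equiv.swap_apply_left, Equiv.swap_apply_right, toAut_rhoP,
          if_true, if_neg hij]
        group
      · by_cases h2 : l = i
        · subst h2
          rw [Ea_ne h1, Ea_self h1, cc_ne h1, toAut_tauP, Equiv.swap_apply_left, toAut_rhoP,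
            if_pos rfl]
          simp only [map_mul, map_zpow, map_inv, Ea_self h1, Ea_self (Ne.symm h1), Ea_ne h1,
            Ea_ne (Ne.symm h1)]
          group
        · rw [Ea_ne h1, Ea_ne h2, Ea_ne h1, cc_ne h1, toAut_tauP, hs1 l h2 h1, toAut_rhoP,
            if_neg h1]
    have e2 := congrArg (QuotientGroup.mk' K) e
    rw [map_mul _ (toAut _), hK.one (hK.ccm j _), mul_one] at e2
    rw [map_mul _ (toAut _), ← e2, ← map_mul]
    congr 1
    rw [mul_assoc, ← Ea_add]
    simp [Ea]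

lemma Nice.ll_eq (i : ι) (w : FreeGroup ι) :
    QuotientGroup.mk' K (ll i w) = (QuotientGroup.mk' K (rr i w))⁻¹ := by
  have := hK.one (hK.ccm i w)
  rw [cc_eq, map_mul] at this
  exact eq_inv_of_mul_eq_one_left this

lemma Nice.sp_Ea (σ : SP ι) (i j : ι) (t : ℤ) : ∃ t', (t' = t ∨ t' = -t) ∧
    QuotientGroup.mk' K (toAut σ * Ea i j t) =
      QuotientGroup.mk' K (Ea (spi σ i) (spi σ j) t' * toAut σ) := by
  have h1 : ∃ s : ℤ, (s = 1 ∨ s = -1) ∧ toAut σ (of j ^ t) = of (spi σ j) ^ (s * t) := by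
    rw [map_zpow, toAut_of]
    rcases gl_cases ((σ : Equiv.Perm (Lt ι)) (j, true)) with h | h
    · exact ⟨1, Or.inl rfl, by rw [h, one_mul]; rfl⟩
    · exact ⟨-1, Or.inr rfl, by rw [h, neg_one_mul, inv_zpow', zpow_neg]; simp; rfl⟩
  obtain ⟨s, hs, h2⟩ := h1
  have h3 := sp_rr (q := QuotientGroup.mk' K) σ i (of j ^ t)
  rw [h2, mul_inv_eq_iff_eq_mul, mul_inv_eq_iff_eq_mul, hK.ll_eq, ← Ea_eq, ← Ea_eq,
    ← map_inv, Ea_inv] at h3
  rcases h3 with h3 | h3
  · refine ⟨s * t, ?_, ?_⟩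
    · rcases hs with rfl | rfl
      · left; ring
      · right; ring
    · rw [map_mul, h3, map_mul]
  · refine ⟨-(s * t), ?_, ?_⟩
    · rcases hs with rfl | rfl
      · right; ring
      · left; ring
    · rw [map_mul, h3, map_mul]

end rel

end Pool.Agent.Helper460_CSP
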