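import Pool.Agent.H12.CSP.A.Helper460_CSP.Sil4

set_option autoImplicit false
set_option linter.unusedSectionVars false
set_option linter.unusedSimpArgs false
set_option linter.unusedVariables false
set_option linter.unnecessarySeqFocus false

namespace Pool.Agent.Helper460_CSP

open Pool.Agent.Helper460_OutF
open FreeGroup (of)
open Pool.Agent.Helper156.OF (SP toAut toAut_gl gl nv gl_nv gl_true Lt SP.map_nv)
open scoped commutatorElement

variable {ι : Type} [DecidableEq ι] [Fintype ι]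

section step

variable {K : Subgroup (MulAut (FreeGroup ι))} [hKn : K.Normal] (hK : Nice K) {S : Finset ι}
  {m : ι} {h : ℕ}
  {s s' : (ι → ℤ) → MulAut (FreeGroup ι) ⧸ Pst K S m} (hs : Lev K S m h s)
  (p1 : ∀ v, nrm v ≤ h → s' v = s v)
  (p2 : ∀ v, OKv S v → nrm v = h + 1 → ∀ i j ε, Red S v i j ε → s' v = vl s v (Ea i j ε))

include hK hs p1 p2

lemma step_sp {v : ι → ℤ} (hv : OKv S v) (hn : nrm v = h + 1) (h2 : 2 ≤ h + 1) {σ : SP ι}
    (hσ : σ ∈ WS S) : s' (ac (toAut σ) v) = toAut σ • s' v := by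
  obtain ⟨i, j, ε, hr⟩ := red_exists hv (by omega)
  have hij := hr.2.2.1
  obtain ⟨t, ht, hrel⟩ := hK.sp_Ea σ i j ε
  have ht1 : t = 1 ∨ t = -1 := by
    rcases ht with rfl | rfl
    · exact hr.2.2.2.1
    · exact neg_pm hr.2.2.2.1
  have hij' : spi σ i ≠ spi σ j := fun h3 => hij (spi_inj _ h3)
  have f1 : ac (toAut σ) (ac (Ea i j ε) v) =
      ac (Ea (spi σ i) (spi σ j) t) (ac (toAut σ) v) := by
    rw [← ac_mul, ← ac_mul]
    exact hK.ac_congr hrel v
  have hlt := hr.lt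
  have hr' : Red S (ac (toAut σ) v) (spi σ i) (spi σ j) t := by
    refine ⟨WS_spi hσ hr.1, WS_spi hσ hr.2.1, hij', ht1, ?_⟩
    have n1 := nrm_Ea hij' t (ac (toAut σ) v)
    rw [← f1, nrm_toAut, nrm_toAut] at n1
    omega
  have hv' := hv.gen (GenS_sp hσ)
  have e1 := p2 v hv hn i j ε hr
  have e2 := p2 _ hv' (by rw [nrm_toAut]; exact hn) _ _ t hr'
  have e3 : s (ac (toAut σ) (ac (Ea i j ε) v)) = toAut σ • s (ac (Ea i j ε) v) :=
    hs.2 _ (hv.gen hr.gen) (by omega) _ (GenS_sp hσ) (by rw [nrm_toAut]; omega)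
  rw [e1, e2]
  unfold vl
  rw [← f1, e3, ← mul_smul, ← mul_smul]
  apply smul_congr
  have h5 : (Ea (spi σ i) (spi σ j) t)⁻¹ * toAut σ =
      (Ea (spi σ i) (spi σ j) t)⁻¹ * (toAut σ * Ea i j ε) * (Ea i j ε)⁻¹ := by group
  rw [h5, map_mul, map_mul, hrel, ← map_mul, ← map_mul]
  congr 1
  group

lemma step_L1 {v : ι → ℤ} (hv : OKv S v) (hn : nrm v = h + 1) (h2 : 2 ≤ h + 1) {i j : ι}
    (hi : i ∈ S) (hj : j ∈ S) (hij : i ≠ j) {ε : ℤ} (hε : ε = 1 ∨ ε = -1) (h0 : v i = 0) :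
    s' (ac (Ea i j ε) v) = Ea i j ε • s' v := by
  rw [ac_Ea_zero hij ε h0]
  obtain ⟨k, l, ζ, hr⟩ := red_exists hv (by omega)
  have hkl := hr.2.2.1
  have hki : k ≠ i := fun h3 => hr.ne.1 (h3 ▸ h0)
  have hli : l ≠ i := fun h3 => hr.ne.2 (h3 ▸ h0)
  have hlt := hr.lt
  have hv' := hv.gen hr.gen
  have h0' : ac (Ea k l ζ) v i = 0 := by
    rw [ac_Ea hkl, h0, if_neg hli.symm, add_zero]
  have e0 : ∀ (b : ι), b ∈ S → i ≠ b → ∀ η : ℤ, (η = 1 ∨ η = -1) →
      Ea i b η • s (ac (Ea k l ζ) v) = s (ac (Ea k l ζ) v) := by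
    intro b hb hib η hη
    have e1 := hs.2 _ hv' (by omega) _ (GenS_Ea hi hb hib hη)
      (by rw [ac_Ea_zero hib η h0']; omega)
    rw [ac_Ea_zero hib η h0'] at e1
    exact e1.symm
  rw [p2 v hv hn _ _ _ hr]
  unfold vl
  rw [← mul_smul]
  by_cases hjk : j = k
  · subst hjk
    have hst := hK.steinberg hij hkl hli.symm ε ζ
    have hcm := hK.comm hij hli.symm hij.symm hli ε (ε * ζ)
    have hεζ : -(ε * ζ) = 1 ∨ -(ε * ζ) = -1 := by
      rcases hε with rfl | rfl <;> rcases hr.2.2.2.1 with h3 | h3 <;> rw [h3] <;> norm_num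
    -- x y⁻¹ = y⁻¹ (y x y⁻¹)
    have h5 : QuotientGroup.mk' K (Ea i j ε * (Ea j l ζ)⁻¹) =
        QuotientGroup.mk' K ((Ea j l ζ)⁻¹ * (Ea i j ε * (Ea i l (-(ε * ζ)))⁻¹)) := by
      rw [Ea_inv i l, neg_neg]
      have h6 : Ea i j ε * (Ea j l ζ)⁻¹ = (Ea j l ζ)⁻¹ * (Ea j l ζ * Ea i j ε) * (Ea j l ζ)⁻¹ := by
        group
      rw [h6, map_mul, map_mul, map_mul, hst]
      simp only [map_mul, map_inv]
      group
    rw [smul_congr h5, mul_smul, mul_smul, Ea_inv i l, neg_neg]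
    have hεζ' : ε * ζ = 1 ∨ ε * ζ = -1 := by
      have := neg_pm hεζ
      rwa [neg_neg] at this
    rw [e0 l hr.2.1 hli.symm _ hεζ', e0 j hj hij _ hε]
  · have hcm := hK.comm hij hkl hjk hli ε ζ
    have h5 : QuotientGroup.mk' K (Ea i j ε * (Ea k l ζ)⁻¹) =
        QuotientGroup.mk' K ((Ea k l ζ)⁻¹ * Ea i j ε) := by
      rw [map_mul, map_mul, map_inv]
      exact hcm.inv_right.eq
    rw [smul_congr h5, mul_smul, e0 j hj hij _ hε]

lemma step_L2 {v : ι → ℤ} (hv : OKv S v) (hn : nrm v = h + 1) {i j : ι}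
    (hi : i ∈ S) (hj : j ∈ S) (hij : i ≠ j) {ε : ℤ} (hε : ε = 1 ∨ ε = -1) (hj0 : v j ≠ 0)
    (h0 : ε * v i = - 2 * v j) :
    s' (ac (Ea i j ε) v) = Ea i j ε • s' v := by
  have hr1 : Red S v j i ε := by
    refine ⟨hj, hi, hij.symm, hε, ?_⟩
    rcases hε with rfl | rfl <;> omega
  have c1 : ac (Ea i j ε) v j = v j + ε * v i := by rw [ac_Ea hij, if_pos rfl]
  have c2 : ac (Ea i j ε) v i = v i := by rw [ac_Ea hij, if_neg hij, add_zero]
  have hr2 : Red S (ac (Ea i j ε) v) j i (-ε) := by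
    refine ⟨hj, hi, hij.symm, neg_pm hε, ?_⟩
    rw [c1, c2]
    rcases hε with rfl | rfl <;> omega
  have n1 := nrm_Ea hij ε v
  have n1' : nrm (ac (Ea i j ε) v) = h + 1 := by omega
  have hv' := hv.gen (GenS_Ea hi hj hij hε)
  obtain ⟨σ, hσ, hrel⟩ := hK.weyl hij hi hj hε
  have f1 : ac (Ea j i (-ε)) (ac (Ea i j ε) v) = ac (toAut σ) (ac (Ea j i ε) v) := by
    rw [← ac_mul, ← ac_mul]
    exact hK.ac_congr hrel v
  have hlt := hr1.lt
  have e3 : s (ac (toAut σ) (ac (Ea j i ε) v)) = toAut σ • s (ac (Ea j i ε) v) :=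
    hs.2 _ (hv.gen hr1.gen) (by omega) _ (GenS_sp hσ) (by rw [nrm_toAut]; omega)
  rw [p2 v hv hn _ _ _ hr1, p2 _ hv' n1' _ _ _ hr2]
  unfold vl
  rw [f1, e3, ← mul_smul, ← mul_smul]
  apply smul_congr
  have h5 : (Ea j i (-ε))⁻¹ * toAut σ =
      (Ea j i (-ε))⁻¹ * (toAut σ * Ea j i ε) * (Ea j i ε)⁻¹ := by group
  rw [h5, map_mul, map_mul, ← hrel, ← map_mul, ← map_mul]
  congr 1
  group

lemma step_lev (h1 : 1 ≤ h) : Lev K S m (h + 1) s' := by
  constructor
  · rw [p1 _ (by rw [nrm_single]; exact h1)]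
    exact hs.1
  · intro v hv hn x hx hn'
    have hv' := hv.gen hx
    by_cases hc : nrm v ≤ h
    · rw [p1 v hc]
      by_cases hc' : nrm (ac x v) ≤ h
      · rw [p1 _ hc']
        exact hs.2 v hv hc x hx hc'
      · have hn1 : nrm (ac x v) = h + 1 := by omega
        rcases hx with ⟨i, hi, j, hj, hij, ε, hε, rfl⟩ | ⟨σ, hσ, rfl⟩
        · have f1 : ac (Ea i j (-ε)) (ac (Ea i j ε) v) = v := by
            rw [← ac_mul, ← Ea_add, neg_add_cancel]
            simp [Ea, ac_one]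
          have hr : Red S (ac (Ea i j ε) v) i j (-ε) := by
            refine ⟨hi, hj, hij, neg_pm hε, ?_⟩
            have n1 := nrm_Ea hij (-ε) (ac (Ea i j ε) v)
            rw [f1] at n1
            omega
          rw [p2 _ hv' hn1 _ _ _ hr]
          unfold vl
          rw [f1, Ea_inv, neg_neg]
        · rw [nrm_toAut] at hn1
          omega
    · have hn0 : nrm v = h + 1 := by omega
      by_cases hc' : nrm (ac x v) ≤ h
      · rw [p1 _ hc']
        rcases hx with ⟨i, hi, j, hj, hij, ε, hε, rfl⟩ | ⟨σ, hσ, rfl⟩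
        · have hr : Red S v i j ε := by
            refine ⟨hi, hj, hij, hε, ?_⟩
            have n1 := nrm_Ea hij ε v
            omega
          rw [p2 _ hv hn0 _ _ _ hr]
          unfold vl
          rw [smul_inv_smul]
        · rw [nrm_toAut] at hc'
          omega
      · have hn1 : nrm (ac x v) = h + 1 := by omega
        rcases hx with ⟨i, hi, j, hj, hij, ε, hε, rfl⟩ | ⟨σ, hσ, rfl⟩
        · have n1 := nrm_Ea hij ε v
          have hab : (v j + ε * v i).natAbs = (v j).natAbs := by omega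
          by_cases h0 : v i = 0
          · exact step_L1 hK hs p1 p2 hv hn0 (by omega) hi hj hij hε h0
          · refine step_L2 hK hs p1 p2 hv hn0 hi hj hij hε ?_ ?_
            · intro h3
              rcases hε with rfl | rfl <;> omega
            · rcases hε with rfl | rfl <;> omega
        · exact step_sp hK hs p1 p2 hv hn0 (by omega) hσ

end step

section concl

variable {K : Subgroup (MulAut (FreeGroup ι))} [hKn : K.Normal] (hK : Nice K) {S : Finset ι}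
  {m : ι}

include hK

lemma lev_exists (hm : m ∈ S) (h : ℕ) : ∃ s, Lev K S m (h + 1) s := by
  classical
  induction h with
  | zero => exact ⟨_, lev_base hK hm⟩
  | succ h ih =>
    obtain ⟨s, hs⟩ := ih
    refine ⟨fun v => if hv : OKv S v ∧ nrm v = h + 1 + 1 ∧ ∃ p : ι × ι × ℤ,
      Red S v p.1 p.2.1 p.2.2 then
      vl s v (Ea hv.2.2.choose.1 hv.2.2.choose.2.1 hv.2.2.choose.2.2) else s v,
      step_lev hK hs ?_ ?_ (by omega)⟩
    · intro v hn
      rw [dif_neg]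
      intro h3
      have := h3.2.1
      omega
    · intro v hv hn i j ε hr
      have h3 : OKv S v ∧ nrm v = h + 1 + 1 ∧ ∃ p : ι × ι × ℤ, Red S v p.1 p.2.1 p.2.2 :=
        ⟨hv, hn, (i, j, ε), hr⟩
      show (if hv : OKv S v ∧ nrm v = h + 1 + 1 ∧ ∃ p : ι × ι × ℤ,
      Red S v p.1 p.2.1 p.2.2 then
      vl s v (Ea hv.2.2.choose.1 hv.2.2.choose.2.1 hv.2.2.choose.2.2) else s v) = _
      rw [dif_pos h3]
      exact vl_wd hK hs hv hn h3.2.2.choose_spec hr

/-- The subgroup generated on `S`. -/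
def GG (K : Subgroup (MulAut (FreeGroup ι))) (S : Finset ι) : Subgroup (MulAut (FreeGroup ι)) :=
  Subgroup.closure (GenS S ∪ K)

omit hKn hK in
lemma GenS_inv {x : MulAut (FreeGroup ι)} (hx : x ∈ GenS S) : x⁻¹ ∈ GenS S := by
  rcases hx with ⟨i, hi, j, hj, hij, ε, hε, rfl⟩ | ⟨σ, hσ, rfl⟩
  · rw [Ea_inv]
    exact GenS_Ea hi hj hij (neg_pm hε)
  · rw [← map_inv]
    exact GenS_sp (inv_mem hσ)

lemma GG_path (hm : m ∈ S) {g : MulAut (FreeGroup ι)} (hg : g ∈ GG K S) :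
    OKv S (ac g (Pi.single m 1)) ∧ ∃ H, ∀ h, H ≤ h → ∀ s, Lev K S m h s →
      s (ac g (Pi.single m 1)) = QuotientGroup.mk g := by
  have key : ∀ x ∈ GenS S ∪ (K : Set (MulAut (FreeGroup ι))), ∀ y : MulAut (FreeGroup ι),
      (OKv S (ac y (Pi.single m 1)) ∧ ∃ H, ∀ h, H ≤ h → ∀ s, Lev K S m h s →
        s (ac y (Pi.single m 1)) = QuotientGroup.mk y) →
      (OKv S (ac (x * y) (Pi.single m 1)) ∧ ∃ H, ∀ h, H ≤ h → ∀ s, Lev K S m h s →
        s (ac (x * y) (Pi.single m 1)) = QuotientGroup.mk (x * y)) := by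
    rintro x (hx | hx) y ⟨h1, H, h2⟩
    · rw [ac_mul]
      refine ⟨h1.gen hx, max H (max (nrm (ac y (Pi.single m 1)))
        (nrm (ac x (ac y (Pi.single m 1))))), ?_⟩
      intro h hh s hs
      rw [hs.2 _ h1 (le_trans (le_trans (le_max_left _ _) (le_max_right _ _)) hh) x hx
        (le_trans (le_trans (le_max_right _ _) (le_max_right _ _)) hh),
        h2 h (le_trans (le_max_left _ _) hh) s hs]
      rfl
    · rw [ac_mul, ac_IA (hK.iam hx)]
      refine ⟨h1, H, fun h hh s hs => ?_⟩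
      rw [h2 h hh s hs]
      apply QuotientGroup.eq.2
      have h3 := hKn.conj_mem _ hx y⁻¹
      have h4 : y⁻¹ * x * y⁻¹⁻¹ = y⁻¹ * (x * y) := by group
      rw [h4] at h3
      exact Subgroup.subset_closure (Or.inr h3)
  unfold GG at hg
  induction hg using Subgroup.closure_induction_left with
  | one =>
    rw [ac_one]
    exact ⟨OKv_single hm, 0, fun h _ s hs => hs.1⟩
  | mul_left x hx y hy ih => exact key x hx y ih
  | inv_mul_cancel x hx y hy ih =>
    refine key x⁻¹ ?_ y ih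
    rcases hx with hx | hx
    · exact Or.inl (GenS_inv hx)
    · exact Or.inr (inv_mem hx)

lemma GG_stab (hm : m ∈ S) {g : MulAut (FreeGroup ι)} (hg : g ∈ GG K S)
    (h1 : ac g (Pi.single m 1) = Pi.single m 1) : g ∈ Pst K S m := by
  obtain ⟨-, H, h2⟩ := GG_path hK hm hg
  obtain ⟨s, hs⟩ := lev_exists hK hm H
  have h3 := h2 (H + 1) (by omega) s hs
  rw [h1, hs.1] at h3
  have h4 := QuotientGroup.eq.1 h3
  rwa [inv_one, one_mul] at h4

end concl

end Pool.Agent.Helper460_CSP
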